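import Pool.Agent.Lib_helper86.Inv.Init

/-!
The three moves in the Hahn field: a level with growth, a level without growth, a change of centre.
-/

set_option autoImplicit false

namespace Inv38

open Matrix
open Inv38.Ft (foot)

variable {n : ℕ}

/-- relative to the centre c: ready for a level with growth -/
def PreB (v : Fin n → ℂ) (σ : St n LL) (c : Fin n → ℝ) (κ μ P : LL) : Prop :=
  Com v σ c κ μ P ∧ MM P⁻¹ ∧ OO (P / κ ^ 2)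

/-- relative to the centre c: after a level with growth -/
def PostB (v : Fin n → ℂ) (σ : St n LL) (c : Fin n → ℝ) (κ μ P : LL) : Prop :=
  Com v σ c κ μ P ∧ MM P⁻¹ ∧ MM (P / κ ^ 2)

/-- relative to the first centre, no growth yet -/
def PreS (v : Fin n → ℂ) (ra : ℝ) (σ : St n LL) (c : Fin n → ℝ) (κ μ P : LL) : Prop :=
  Com v σ c κ μ P ∧ Cl P ((ra : ℂ) ^ 2) ∧ Cl (μ / κ) (Complex.I * ra)

variable {v : Fin n → ℂ} {σ : St n LL} {c : Fin n → ℝ} {κ μ P : LL}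

/-- a level with growth -/
lemma PreB.level (h : PreB v σ c κ μ P) {r : ℝ} (hr : 0 < r) :
    ∃ S : LL, S ≠ 0 ∧ S ^ 2 = (algebraMap ℝ LL r) ^ 2 * nn σ - gg c σ ∧
      ∀ e : ℕ, 1 ≤ e → ∃ κ' μ' : LL, PostB v ((step ⟨c, r, S⟩)^[e] σ) c κ' μ' P ∧
        MM (κ / κ') := by
  obtain ⟨h1, h2, h3⟩ := h
  obtain ⟨S, hS0, hS, hS1⟩ := h1.big_sqrt h2 r
  refine ⟨S, hS0, hS, fun e he => ?_⟩
  have ok : Ok (⟨c, r, S⟩ : Lt n LL) σ := ⟨hr, hS⟩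
  obtain ⟨g1, g2⟩ := h1.big_iter h2 (l := ⟨c, r, S⟩) rfl ok hS1 e
  have hf : MM (4 * P / (algebraMap ℝ LL r) ^ 2)⁻¹ := Com.big_factor h2 hr h1.hP0
  have hR : algebraMap ℝ LL r ≠ 0 := Ft.r_ne ok
  have h4 : (4 : LL) ≠ 0 := by rw [← K_four]; exact K_ne (by norm_num)
  have hφ0 : 4 * P / (algebraMap ℝ LL r) ^ 2 ≠ 0 :=
    div_ne_zero (mul_ne_zero h4 h1.hP0) (pow_ne_zero 2 hR)
  have hφe : MM ((4 * P / (algebraMap ℝ LL r) ^ 2) ^ e)⁻¹ := by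
    rw [← inv_pow]; exact MM_pow hf he
  have hκ0 := h1.hκ0
  have hpe := pow_ne_zero e hφ0
  refine ⟨_, _, ⟨g1, h2, ?_⟩, ?_⟩
  · have e1 : P / (κ * (4 * P / (algebraMap ℝ LL r) ^ 2) ^ e) ^ 2 =
        P / κ ^ 2 * (((4 * P / (algebraMap ℝ LL r) ^ 2) ^ e)⁻¹) ^ 2 := by
      rw [mul_pow, inv_pow, ← div_div, div_eq_mul_inv (P / κ ^ 2)]
    rw [e1]
    exact MM_mul' h3 (MM_pow hφe (by norm_num))
  · have e1 : κ / (κ * (4 * P / (algebraMap ℝ LL r) ^ 2) ^ e) =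
        ((4 * P / (algebraMap ℝ LL r) ^ 2) ^ e)⁻¹ := by
      rw [← div_div, div_self hκ0, one_div]
    rw [e1]; exact hφe

/-- a level without growth -/
lemma PreS.level {ra : ℝ} (h : PreS v ra σ c κ μ P) (hra : 0 < ra) {r : ℝ} (hr : 0 < r)
    (hne : r ≠ ra) :
    ∃ S : LL, S ≠ 0 ∧ S ^ 2 = (algebraMap ℝ LL r) ^ 2 * nn σ - gg c σ ∧
      ∀ e : ℕ, ∃ κ' μ' : LL, PreS v ra ((step ⟨c, r, S⟩)^[e] σ) c κ' μ' P := by
  obtain ⟨h1, h2, h3⟩ := h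
  obtain ⟨S, s0, hS0, hS, hs0, hS1⟩ := h1.small_sqrt hra h2 r hr hne
  refine ⟨S, hS0, hS, fun e => ?_⟩
  have ok : Ok (⟨c, r, S⟩ : Lt n LL) σ := ⟨hr, hS⟩
  obtain ⟨κ', μ', g1, g2, g3⟩ := h1.small_iter h2 h3 (l := ⟨c, r, S⟩) rfl ok hs0 hS1 e
  exact ⟨κ', μ', g1, h2, g3⟩

/-- change of centre after growth -/
lemma PostB.shift (h : PostB v σ c κ μ P) (c' : Fin n → ℝ)
    (hb : ∑ i, ((c i - c' i : ℝ) : ℂ) * v i ≠ 0) :
    ∃ μ' P', PreB v σ c' κ μ' P' := by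
  obtain ⟨P', h1, h2, h3⟩ := h.1.shift h.2.2 c' hb rfl
  exact ⟨_, P', h1, h2, h3⟩

/-- change of centre before growth -/
lemma PreS.shift {ra : ℝ} (h : PreS v ra σ c κ μ P) (c' : Fin n → ℝ)
    (hb : ∑ i, ((c i - c' i : ℝ) : ℂ) * v i ≠ 0) :
    ∃ μ' P', PreB v σ c' κ μ' P' := by
  have hPκ : MM (P / κ ^ 2) := by
    rw [div_eq_mul_inv, ← inv_pow]
    exact MM_mul' h.2.1.O (MM_pow h.1.hκ (by norm_num))
  obtain ⟨P', h1, h2, h3⟩ := h.1.shift hPκ c' hb rfl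
  exact ⟨_, P', h1, h2, h3⟩

lemma PostB.pre (h : PostB v σ c κ μ P) : PreB v σ c κ μ P := ⟨h.1, h.2.1, h.2.2.O⟩

end Inv38
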