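import Pool.Agent.Lib_helper86.Inv.Ext
import Pool.Agent.Lib_helper86.Inv.Levels
import Pool.Agent.Lib_helper37.InvReduce

/-!
Chains of reflections in spheres over a field; fields of definition; transport into the Hahn field.
-/

set_option autoImplicit false

namespace Inv38

open IntermediateField Matrix

section
variable {n : ℕ} {F : Type*} [Field F] [Algebra ℝ F]

/-- all coordinates lie in K -/
def InK (K : IntermediateField ℝ F) (σ : St n F) : Prop := (∀ i, σ.x i ∈ K) ∧ ∀ i, σ.w i ∈ K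

lemma dot_mem {K : IntermediateField ℝ F} {f g : Fin n → F} (hf : ∀ i, f i ∈ K)
    (hg : ∀ i, g i ∈ K) : f ⬝ᵥ g ∈ K := by
  unfold dotProduct
  exact sum_mem fun i _ => mul_mem (hf i) (hg i)

lemma InK.nn {K : IntermediateField ℝ F} {σ : St n F} (h : InK K σ) : Inv38.nn σ ∈ K :=
  dot_mem h.2 h.2

lemma InK.y {K : IntermediateField ℝ F} {σ : St n F} (h : InK K σ) (c : Fin n → ℝ) (i : Fin n) :
    (σ.x - cc c : Fin n → F) i ∈ K := sub_mem (h.1 i) (K.algebraMap_mem _)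

lemma InK.gg {K : IntermediateField ℝ F} {σ : St n F} (h : InK K σ) (c : Fin n → ℝ) :
    Inv38.gg c σ ∈ K :=
  sub_mem (mul_mem h.nn (dot_mem (h.y c) (h.y c))) (pow_mem (dot_mem (h.y c) h.2) 2)

lemma InK.tt {K : IntermediateField ℝ F} {σ : St n F} (h : InK K σ) {l : Lt n F}
    (hs : l.s ∈ K) : Inv38.tt l σ ∈ K :=
  div_mem (sub_mem hs (dot_mem (h.y l.c) h.2)) h.nn

lemma InK.aa {K : IntermediateField ℝ F} {σ : St n F} (h : InK K σ) {l : Lt n F}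
    (hs : l.s ∈ K) (i : Fin n) : Inv38.aa l σ i ∈ K :=
  add_mem (h.y l.c i) (mul_mem (h.tt hs) (h.2 i))

lemma InK.ww {K : IntermediateField ℝ F} {σ : St n F} (h : InK K σ) {l : Lt n F}
    (hs : l.s ∈ K) (i : Fin n) : Inv38.ww l σ i ∈ K := by
  have h2 : (2 : F) ∈ K := by
    have := K.algebraMap_mem 2
    rwa [map_ofNat] at this
  exact sub_mem (h.2 i) (mul_mem (div_mem (mul_mem h2 hs) (pow_mem (K.algebraMap_mem _) 2))
    (h.aa hs i))

lemma InK.step {K : IntermediateField ℝ F} {σ : St n F} (h : InK K σ) {l : Lt n F}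
    (hs : l.s ∈ K) : InK K (Inv38.step l σ) :=
  ⟨fun i => add_mem (h.1 i) (mul_mem (h.tt hs) (sub_mem (h.2 i) (h.ww hs i))),
    fun i => h.ww hs i⟩

lemma InK.iter {K : IntermediateField ℝ F} {σ : St n F} (h : InK K σ) {l : Lt n F}
    (hs : l.s ∈ K) (e : ℕ) : InK K ((Inv38.step l)^[e] σ) := by
  induction e with
  | zero => exact h
  | succ e ih => rw [Function.iterate_succ_apply']; exact ih.step hs

lemma InK.unstep {K : IntermediateField ℝ F} {σ : St n F} {l : Lt n F} (hN : Inv38.nn σ ≠ 0)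
    (ok : Ok l σ) (h : InK K (Inv38.step l σ)) (hs : l.s ∈ K) : InK K σ := by
  have := h.step (l := ⟨l.c, l.r, -l.s⟩) (neg_mem hs)
  rwa [step_step_neg l σ hN ok ⟨l.c, l.r, -l.s⟩ rfl rfl rfl] at this

lemma InK.uniter {K : IntermediateField ℝ F} {σ : St n F} {l : Lt n F} (hN : Inv38.nn σ ≠ 0)
    (ok : Ok l σ) (hs : l.s ∈ K) (e : ℕ) (h : InK K ((Inv38.step l)^[e] σ)) : InK K σ := by
  induction e with
  | zero => exact h
  | succ e ih =>
    rw [Function.iterate_succ_apply'] at h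
    obtain ⟨h1, h2⟩ := nn_iter l e σ hN ok
    exact ih (InK.unstep (by rw [h1]; exact hN) h2 h hs)

lemma InK.mono {K K' : IntermediateField ℝ F} (hK : K ≤ K') {σ : St n F} (h : InK K σ) :
    InK K' σ := ⟨fun i => hK (h.1 i), fun i => hK (h.2 i)⟩

/-- image of a state -/
def mapSt (ψ : F → LL) (σ : St n F) : St n LL := ⟨fun i => ψ (σ.x i), fun i => ψ (σ.w i)⟩

variable {K : IntermediateField ℝ F} {ψ : F → LL}

lemma HomOn.mono {K' : IntermediateField ℝ F} (h : HomOn K ψ) (hle : K' ≤ K) : HomOn K' ψ :=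
  ⟨fun x hx y hy => h.1 x (hle hx) y (hle hy), fun x hx y hy => h.2.1 x (hle hx) y (hle hy), h.2.2⟩

lemma HomOn.sum (h : HomOn K ψ) {ι : Type*} (s : Finset ι) (f : ι → F) (hf : ∀ i ∈ s, f i ∈ K) :
    ψ (∑ i ∈ s, f i) = ∑ i ∈ s, ψ (f i) := by
  classical
  induction s using Finset.induction_on with
  | empty => simpa using h.zero
  | insert a s ha ih =>
    rw [Finset.sum_insert ha, Finset.sum_insert ha,
      h.1 _ (hf a (Finset.mem_insert_self a s)) _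
        (sum_mem fun i hi => hf i (Finset.mem_insert_of_mem hi)),
      ih fun i hi => hf i (Finset.mem_insert_of_mem hi)]

lemma HomOn.dot (h : HomOn K ψ) {f g : Fin n → F} (hf : ∀ i, f i ∈ K) (hg : ∀ i, g i ∈ K) :
    ψ (f ⬝ᵥ g) = (fun i => ψ (f i)) ⬝ᵥ (fun i => ψ (g i)) := by
  unfold dotProduct
  rw [h.sum _ _ (fun i _ => mul_mem (hf i) (hg i))]
  exact Finset.sum_congr rfl fun i _ => h.2.1 _ (hf i) _ (hg i)

lemma HomOn.nn (h : HomOn K ψ) {σ : St n F} (hσ : InK K σ) :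
    ψ (Inv38.nn σ) = Inv38.nn (mapSt ψ σ) := h.dot hσ.2 hσ.2

lemma HomOn.y (h : HomOn K ψ) {σ : St n F} (hσ : InK K σ) (c : Fin n → ℝ) :
    (fun i => ψ ((σ.x - cc c : Fin n → F) i)) = (mapSt ψ σ).x - cc c := by
  funext i
  show ψ (σ.x i - algebraMap ℝ F (c i)) = ψ (σ.x i) - algebraMap ℝ LL (c i)
  rw [h.sub (hσ.1 i) (K.algebraMap_mem _), h.2.2]

lemma HomOn.gg (h : HomOn K ψ) {σ : St n F} (hσ : InK K σ) (c : Fin n → ℝ) :
    ψ (Inv38.gg c σ) = Inv38.gg c (mapSt ψ σ) := by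
  unfold Inv38.gg
  rw [h.sub (mul_mem hσ.nn (dot_mem (hσ.y c) (hσ.y c))) (pow_mem (dot_mem (hσ.y c) hσ.2) 2),
    h.2.1 _ hσ.nn _ (dot_mem (hσ.y c) (hσ.y c)), h.nn hσ, h.dot (hσ.y c) (hσ.y c),
    h.pow (dot_mem (hσ.y c) hσ.2), h.dot (hσ.y c) hσ.2, h.y hσ c]
  rfl

lemma HomOn.step (h : HomOn K ψ) {σ : St n F} (hσ : InK K σ) {l : Lt n F} (hs : l.s ∈ K) :
    mapSt ψ (Inv38.step l σ) = Inv38.step ⟨l.c, l.r, ψ l.s⟩ (mapSt ψ σ) := by
  have h2K : (2 : F) ∈ K := by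
    have := K.algebraMap_mem 2
    rwa [map_ofNat] at this
  have h2 : ψ 2 = 2 := by
    have := h.2.2 2
    rwa [map_ofNat, map_ofNat] at this
  have ht : ψ (Inv38.tt l σ) = Inv38.tt ⟨l.c, l.r, ψ l.s⟩ (mapSt ψ σ) := by
    unfold Inv38.tt
    rw [h.div (sub_mem hs (dot_mem (hσ.y l.c) hσ.2)) hσ.nn, h.sub hs (dot_mem (hσ.y l.c) hσ.2),
      h.nn hσ, h.dot (hσ.y l.c) hσ.2, h.y hσ l.c]
    rfl
  have ha : ∀ i, ψ (Inv38.aa l σ i) = Inv38.aa ⟨l.c, l.r, ψ l.s⟩ (mapSt ψ σ) i := by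
    intro i
    show ψ ((σ.x - cc l.c : Fin n → F) i + Inv38.tt l σ * σ.w i) =
      ((mapSt ψ σ).x - cc l.c : Fin n → LL) i + Inv38.tt ⟨l.c, l.r, ψ l.s⟩ (mapSt ψ σ) * ψ (σ.w i)
    rw [h.1 _ (hσ.y l.c i) _ (mul_mem (hσ.tt hs) (hσ.2 i)), h.2.1 _ (hσ.tt hs) _ (hσ.2 i), ht]
    congr 1
    exact congrFun (h.y hσ l.c) i
  have hw : ∀ i, ψ (Inv38.ww l σ i) = Inv38.ww ⟨l.c, l.r, ψ l.s⟩ (mapSt ψ σ) i := by
    intro i
    have hk : 2 * l.s / (algebraMap ℝ F l.r) ^ 2 ∈ K :=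
      div_mem (mul_mem h2K hs) (pow_mem (K.algebraMap_mem _) 2)
    show ψ (σ.w i - (2 * l.s / (algebraMap ℝ F l.r) ^ 2) * Inv38.aa l σ i) =
      ψ (σ.w i) - (2 * ψ l.s / (algebraMap ℝ LL l.r) ^ 2) *
        Inv38.aa ⟨l.c, l.r, ψ l.s⟩ (mapSt ψ σ) i
    rw [h.sub (hσ.2 i) (mul_mem hk (hσ.aa hs i)), h.2.1 _ hk _ (hσ.aa hs i), ha i,
      h.div (mul_mem h2K hs) (pow_mem (K.algebraMap_mem _) 2), h.2.1 _ h2K _ hs, h2,
      h.pow (K.algebraMap_mem _), h.2.2]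
  apply St.ext
  · funext i
    show ψ (σ.x i + Inv38.tt l σ * (σ.w i - Inv38.ww l σ i)) =
      ψ (σ.x i) + Inv38.tt ⟨l.c, l.r, ψ l.s⟩ (mapSt ψ σ) *
        (ψ (σ.w i) - Inv38.ww ⟨l.c, l.r, ψ l.s⟩ (mapSt ψ σ) i)
    rw [h.1 _ (hσ.1 i) _ (mul_mem (hσ.tt hs) (sub_mem (hσ.2 i) (hσ.ww hs i))),
      h.2.1 _ (hσ.tt hs) _ (sub_mem (hσ.2 i) (hσ.ww hs i)), h.sub (hσ.2 i) (hσ.ww hs i), ht, hw i]
  · funext i
    exact hw i

lemma HomOn.iter (h : HomOn K ψ) {σ : St n F} (hσ : InK K σ) {l : Lt n F} (hs : l.s ∈ K)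
    (e : ℕ) :
    mapSt ψ ((Inv38.step l)^[e] σ) = (Inv38.step ⟨l.c, l.r, ψ l.s⟩)^[e] (mapSt ψ σ) := by
  induction e with
  | zero => rfl
  | succ e ih =>
    rw [Function.iterate_succ_apply', Function.iterate_succ_apply', ← ih]
    exact h.step (hσ.iter hs e) hs

end

/-- data of a chain -/
structure Ch (n : ℕ) (F : Type*) where
  /-- letters -/
  l : ℕ → Lt n F
  /-- multiplicities -/
  e : ℕ → ℕ
  /-- states -/
  st : ℕ → St n F

namespace Ch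

variable {n : ℕ} {F : Type*} [Field F] [Algebra ℝ F] (D : Ch n F)

/-- the i-th level is valid -/
structure Lev (i : ℕ) : Prop where
  ok : Ok (D.l i) (D.st i)
  nne : nn (D.st i) ≠ 0
  epos : 1 ≤ D.e i
  next : D.st (i + 1) = (step (D.l i))^[D.e i] (D.st i)

/-- all levels of an interval are valid -/
def IsCh (a b : ℕ) : Prop := ∀ i, a ≤ i → i < b → D.Lev i

/-- reducedness -/
def Red (a b : ℕ) : Prop :=
  ∀ i j, a ≤ i → i < j → j < b → (∀ l, i < l → l ≤ j → (D.l l).c = (D.l i).c) →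
    (D.l j).r ≠ (D.l i).r

/-- the field of the state a -/
noncomputable def F0 (a : ℕ) : IntermediateField ℝ F :=
  adjoin ℝ (Set.range (Sum.elim (D.st a).x (D.st a).w))

/-- the field of the chain -/
noncomputable def FF (a : ℕ) : ℕ → IntermediateField ℝ F
  | 0 => D.F0 a
  | (k + 1) => FF a k ⊔ adjoin ℝ {(D.l (a + k)).s}

variable {D}

lemma F0_in (a : ℕ) : InK (D.F0 a) (D.st a) :=
  ⟨fun i => subset_adjoin ℝ _ ⟨Sum.inl i, rfl⟩, fun i => subset_adjoin ℝ _ ⟨Sum.inr i, rfl⟩⟩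

lemma F0_le {a : ℕ} {K : IntermediateField ℝ F} (h : InK K (D.st a)) : D.F0 a ≤ K := by
  unfold F0
  rw [adjoin_le_iff]
  rintro _ ⟨i | i, rfl⟩
  · exact h.1 i
  · exact h.2 i

lemma FF_le_succ (a k : ℕ) : D.FF a k ≤ D.FF a (k + 1) := le_sup_left

lemma s_mem (a k : ℕ) : (D.l (a + k)).s ∈ D.FF a (k + 1) :=
  (le_sup_right : adjoin ℝ {(D.l (a + k)).s} ≤ D.FF a (k + 1)) (mem_adjoin_simple_self ℝ _)

lemma F0_le_FF (a k : ℕ) : D.F0 a ≤ D.FF a k := by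
  induction k with
  | zero => exact le_refl _
  | succ k ih => exact ih.trans (FF_le_succ a k)

lemma Lev.fwd {i : ℕ} (h : D.Lev i) {K : IntermediateField ℝ F} (hK : InK K (D.st i))
    (hs : (D.l i).s ∈ K) : InK K (D.st (i + 1)) := by
  rw [h.next]; exact hK.iter hs _

lemma Lev.bwd {i : ℕ} (h : D.Lev i) {K : IntermediateField ℝ F} (hK : InK K (D.st (i + 1)))
    (hs : (D.l i).s ∈ K) : InK K (D.st i) := by
  rw [h.next] at hK
  exact InK.uniter h.nne h.ok hs _ hK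

lemma st_mem (a k : ℕ) (h : D.IsCh a (a + k)) : InK (D.FF a k) (D.st (a + k)) := by
  induction k with
  | zero => exact F0_in a
  | succ k ih =>
    have h1 := ih (fun i hi hi' => h i hi (by omega))
    exact (h (a + k) (by omega) (by omega)).fwd (h1.mono (FF_le_succ a k)) (s_mem a k)

lemma FF_shift (a k : ℕ) (h : D.Lev a) :
    D.FF a (k + 1) = D.FF (a + 1) k ⊔ adjoin ℝ {(D.l a).s} := by
  induction k with
  | zero =>
    show D.F0 a ⊔ adjoin ℝ {(D.l (a + 0)).s} = D.F0 (a + 1) ⊔ adjoin ℝ {(D.l a).s}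
    rw [add_zero]
    apply le_antisymm
    · refine sup_le ?_ le_sup_right
      refine F0_le (h.bwd ((F0_in (a + 1)).mono le_sup_left) ?_)
      exact (le_sup_right : adjoin ℝ {(D.l a).s} ≤ D.F0 (a + 1) ⊔ adjoin ℝ {(D.l a).s})
        (mem_adjoin_simple_self ℝ _)
    · refine sup_le ?_ le_sup_right
      refine F0_le (h.fwd ((F0_in a).mono le_sup_left) ?_)
      exact (le_sup_right : adjoin ℝ {(D.l a).s} ≤ D.F0 a ⊔ adjoin ℝ {(D.l a).s})
        (mem_adjoin_simple_self ℝ _)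
  | succ k ih =>
    show D.FF a (k + 1) ⊔ adjoin ℝ {(D.l (a + (k + 1))).s} =
      (D.FF (a + 1) k ⊔ adjoin ℝ {(D.l (a + 1 + k)).s}) ⊔ adjoin ℝ {(D.l a).s}
    rw [ih, show a + (k + 1) = a + 1 + k by omega, sup_assoc, sup_assoc,
      sup_comm (adjoin ℝ {(D.l a).s})]

/-- the square of the root lies in the field of the state -/
lemma Lev.sq {i : ℕ} (h : D.Lev i) {K : IntermediateField ℝ F} (hK : InK K (D.st i)) :
    (D.l i).s ^ 2 ∈ K := by
  rw [h.ok.2]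
  exact sub_mem (mul_mem (pow_mem (K.algebraMap_mem _) 2) hK.nn) (hK.gg _)

lemma Lev.ψsq {i : ℕ} (h : D.Lev i) {K : IntermediateField ℝ F} (hK : InK K (D.st i)) {ψ : F → LL}
    (hψ : HomOn K ψ) : ψ ((D.l i).s ^ 2) =
      (algebraMap ℝ LL (D.l i).r) ^ 2 * nn (mapSt ψ (D.st i)) -
        gg (D.l i).c (mapSt ψ (D.st i)) := by
  rw [h.ok.2, hψ.sub (mul_mem (pow_mem (K.algebraMap_mem _) 2) hK.nn) (hK.gg _),
    hψ.2.1 _ (pow_mem (K.algebraMap_mem _) 2) _ hK.nn, hψ.pow (K.algebraMap_mem _), hψ.2.2,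
    hψ.nn hK, hψ.gg hK]

lemma Lev.nn_next {i : ℕ} (h : D.Lev i) : nn (D.st (i + 1)) = nn (D.st i) := by
  rw [h.next]; exact (nn_iter (D.l i) (D.e i) _ h.nne h.ok).1

lemma Lev.ok_next {i : ℕ} (h : D.Lev i) : Ok (D.l i) (D.st (i + 1)) := by
  rw [h.next]; exact (nn_iter (D.l i) (D.e i) _ h.nne h.ok).2

/-- independence is transported along a level -/
lemma Lev.ind {i : ℕ} (h : D.Lev i)
    (hind : AlgebraicIndependent ℝ (Sum.elim (D.st i).x (D.st i).w)) :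
    AlgebraicIndependent ℝ (Sum.elim (D.st (i + 1)).x (D.st (i + 1)).w) := by
  refine exchange hind ?_
  set S := Set.range (Sum.elim (D.st (i + 1)).x (D.st (i + 1)).w) with hS
  -- the algebraic closure of the field generated by S inside F
  let A : IntermediateField ℝ F :=
    { carrier := {x | Alg ℝ S x}
      mul_mem' := fun hx hy => Alg.mul hx hy
      add_mem' := fun hx hy => Alg.add hx hy
      algebraMap_mem' := fun z => Alg.const S z
      inv_mem' := fun x hx => Alg.inv hx }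
  have h1 : InK A (D.st (i + 1)) :=
    ⟨fun j => Alg.mem ⟨Sum.inl j, rfl⟩, fun j => Alg.mem ⟨Sum.inr j, rfl⟩⟩
  have hs2 : (D.l i).s ^ 2 ∈ A := by
    rw [h.ok_next.2]
    exact sub_mem (mul_mem (pow_mem (A.algebraMap_mem _) 2) h1.nn) (h1.gg _)
  have hs : (D.l i).s ∈ A := Alg.of_sq hs2
  have h2 : InK A (D.st i) := h.bwd h1 hs
  rintro (j | j)
  · exact h2.1 j
  · exact h2.2 j

end Ch

end Inv38
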