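import Pool.Agent.Lib_helper86.Inv.Indep

/-!
Relations between reflections in spheres are trivial.
-/

set_option autoImplicit false

namespace Inv38

open IntermediateField Matrix

namespace Ch

variable {n : ℕ} {F : Type*} [Field F] [Algebra ℝ F] {D : Ch n F}

/-- the special state for growth from the start -/
lemma spec_big {v u : Fin n → ℂ} (hvv : ∑ i, v i * v i = 0) (huu : ∑ i, u i * u i = 0)
    (hvu : ∑ i, v i * u i = 1 / 2) (c : Fin n → ℝ) :
    ∃ σ : St n LL, AlgebraicIndependent ℝ (Sum.elim σ.x σ.w) ∧ ∃ κ μ P : LL,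
      PreB v σ c κ μ P := by
  set T := mono (2 * n + 1) with hT
  have hT0 : T ≠ 0 := mono_ne _
  obtain ⟨P, hP1, hP2⟩ := spec_com (2 * n) hvv huu hvu c (R := T⁻¹) (inv_ne_zero hT0)
    (by rw [inv_inv]; exact (MM_mono _).O) (TT_inv _) (dx := fun i => mono i)
    (dw := fun i => mono (n + i))
    (fun i => DS_mono (by have := i.isLt; omega)) (fun i => DS_mono (by have := i.isLt; omega))
  refine ⟨_, spec_ind v u c T⁻¹ (Alg.mem (by simp [hT])).inv, _, _, P, hP1, ?_, ?_⟩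
  · have hPR : Cl (P * T ^ 2) 1 := by
      have e : P * T ^ 2 = 1 + (P - T⁻¹ ^ 2) * T ^ 2 := by field_simp; ring
      rw [e]
      refine (((Cl_const 1).eq K_one).add (MM_mul hP2.M (OO_pow (MM_mono _).O 2)).cl).congr ?_
      ring
    have e : P⁻¹ = T ^ 2 * (P * T ^ 2)⁻¹ := by
      have := hP1.hP0
      field_simp
    rw [e]
    exact MM_mul (MM_pow (MM_mono _) (by norm_num)) (hPR.inv one_ne_zero).O
  · have e : P / (T⁻¹) ^ 2 = 1 + (P - T⁻¹ ^ 2) * T ^ 2 := by field_simp; ring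
    rw [← hT, e]
    exact OO_add OO_one (OO_mul hP2.M.O (OO_pow (MM_mono _).O 2))

/-- the directions grow along a reduced chain -/
lemma grow {v u : Fin n → ℂ} (k : ℕ) (hk : 1 ≤ k) (hiso : Iso D k v u) (hch : D.IsCh 0 k)
    (hred : D.Red 0 k) (hind : AlgebraicIndependent ℝ (Sum.elim (D.st 0).x (D.st 0).w)) :
    ∃ ψ : F → LL, HomOn (D.FF 0 k) ψ ∧ ∃ κ₀ κ μ P : LL, (∀ i, Cl (ψ ((D.st 0).w i) / κ₀) (v i)) ∧
      κ₀ ≠ 0 ∧ PostB v (mapSt ψ (D.st k)) (D.l (k - 1)).c κ μ P ∧ MM (κ₀ / κ) := by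
  obtain ⟨σ, s1, κ₀, μ₀, P₀, s2⟩ := spec_big hiso.vv hiso.uu hiso.vu (D.l 0).c
  obtain ⟨ψ₀, g1, g2⟩ := base_hom hind s1
  have hσ : mapSt ψ₀ (D.st 0) = σ := by
    apply St.ext
    · funext i; exact g2 (Sum.inl i)
    · funext i; exact g2 (Sum.inr i)
  have g1' : HomOn (D.FF 0 0) ψ₀ := g1
  have hind' : ∀ j < k, (D.l j).s ∉ D.FF 0 j := by
    intro j hj
    have := indep (D := D) (v := v) (u := u) j 0 (Iso_mono hiso (by omega))
      (fun i hi hi' => hch i hi (by omega)) (fun i i' hi hii hi' => hred i i' hi hii (by omega)) hind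
    rwa [Nat.zero_add] at this
  -- induction with the state before the level
  have key : ∀ j, j < k → ∃ ψ : F → LL, HomOn (D.FF 0 (j + 1)) ψ ∧ ∃ κ μ P : LL,
      (∀ i, ψ ((D.st 0).w i) = ψ₀ ((D.st 0).w i)) ∧
      PostB v (mapSt ψ (D.st (j + 1))) (D.l j).c κ μ P ∧ MM (κ₀ / κ) := by
    intro j
    induction j with
    | zero =>
      intro h0
      have hlev : D.Lev 0 := hch 0 le_rfl (by omega)
      obtain ⟨S, hS0, hS, hS2⟩ := s2.level hlev.ok.1
      obtain ⟨κ', μ', hpost, hMM⟩ := hS2 (D.e 0) hlev.epos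
      have hK : InK (D.FF 0 0) (D.st 0) := F0_in 0
      have hS' : S ^ 2 = ψ₀ ((D.l 0).s ^ 2) := by
        rw [hlev.ψsq hK g1', hσ]; exact hS
      obtain ⟨ψ', p1, p2, p3⟩ := ext_hom g1' (hlev.sq hK) (hind' 0 (by omega)) hS'
      have p1' : HomOn (D.FF 0 1) ψ' := p1
      refine ⟨ψ', p1', κ', μ', P₀, fun i => p2 _ (hK.2 i), ?_, hMM⟩
      have hmap : mapSt ψ' (D.st 0) = σ := by
        rw [← hσ]
        apply St.ext
        · funext m; exact p2 _ (hK.1 m)
        · funext m; exact p2 _ (hK.2 m)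
      have hnext := hlev.next
      rw [Nat.zero_add] at hnext ⊢
      rw [hnext, p1'.iter (hK.mono (FF_le_succ _ _)) (s_mem 0 0), hmap]
      have : ψ' (D.l 0).s = S := p3
      rw [this]
      exact hpost
    | succ j ih =>
      intro hj
      obtain ⟨ψ, h1, κ, μ, P, h2, h3, h4⟩ := ih (by omega)
      have hlev : D.Lev (j + 1) := hch (j + 1) (by omega) (by omega)
      have hK : InK (D.FF 0 (j + 1)) (D.st (j + 1)) := by
        have := st_mem (D := D) 0 (j + 1) (fun i hi hi' => hch i hi (by omega))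
        rwa [Nat.zero_add] at this
      have hpre : ∃ μ' P', PreB v (mapSt ψ (D.st (j + 1))) (D.l (j + 1)).c κ μ' P' := by
        by_cases hc : (D.l j).c = (D.l (j + 1)).c
        · rw [← hc]; exact ⟨μ, P, h3.pre⟩
        · exact h3.shift _ (hiso.gen j (by omega) (j + 1) (by omega) hc)
      obtain ⟨μ', P', hpre⟩ := hpre
      obtain ⟨S, hS0, hS, hS2⟩ := hpre.level hlev.ok.1
      obtain ⟨κ'', μ'', hpost, hMM⟩ := hS2 (D.e (j + 1)) hlev.epos
      have hS' : S ^ 2 = ψ ((D.l (j + 1)).s ^ 2) := by rw [hlev.ψsq hK h1]; exact hS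
      obtain ⟨ψ', p1, p2, p3⟩ := ext_hom h1 (hlev.sq hK) (hind' (j + 1) hj) hS'
      have p1' : HomOn (D.FF 0 (j + 1 + 1)) ψ' := by
        show HomOn (D.FF 0 (j + 1) ⊔ adjoin ℝ {(D.l (0 + (j + 1))).s}) ψ'
        rw [Nat.zero_add]; exact p1
      have hK0 : InK (D.FF 0 (j + 1)) (D.st 0) := (F0_in 0).mono (F0_le_FF _ _)
      refine ⟨ψ', p1', κ'', μ'', P', fun i => by rw [p2 _ (hK0.2 i), h2], ?_, ?_⟩
      · have hmap : mapSt ψ' (D.st (j + 1)) = mapSt ψ (D.st (j + 1)) := by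
          apply St.ext
          · funext m; exact p2 _ (hK.1 m)
          · funext m; exact p2 _ (hK.2 m)
        have hs : (D.l (j + 1)).s ∈ D.FF 0 (j + 1 + 1) := by
          have := s_mem (D := D) 0 (j + 1)
          rwa [Nat.zero_add] at this
        rw [hlev.next, p1'.iter (hK.mono (FF_le_succ _ _)) hs, hmap]
        have : ψ' (D.l (j + 1)).s = S := p3
        rw [this]
        exact hpost
      · have hκ0 := h3.1.hκ0
        have e : κ₀ / κ'' = (κ₀ / κ) * (κ / κ'') := by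
          have := hpost.1.hκ0
          field_simp
        rw [e]
        exact MM_mul h4 hMM.O
  obtain ⟨ψ, h1, κ, μ, P, h2, h3, h4⟩ := key (k - 1) (by omega)
  have hk' : k - 1 + 1 = k := by omega
  rw [hk'] at h1 h3
  refine ⟨ψ, h1, κ₀, κ, μ, P, ?_, s2.1.hκ0, h3, h4⟩
  intro i
  rw [h2 i]
  have := s2.1.hw i
  rw [← hσ] at this
  exact this

/-- the final direction of a nonempty reduced chain is no real linear function of the first one -/
theorem no_return {v u : Fin n → ℂ} (k : ℕ) (hk : 1 ≤ k) (hiso : Iso D k v u) (hch : D.IsCh 0 k)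
    (hred : D.Red 0 k) (hind : AlgebraicIndependent ℝ (Sum.elim (D.st 0).x (D.st 0).w))
    (M : Matrix (Fin n) (Fin n) ℝ) :
    (D.st k).w ≠ (M.map (algebraMap ℝ F)).mulVec (D.st 0).w := by
  intro hM
  obtain ⟨ψ, h1, κ₀, κ, μ, P, h2, hκ₀, h3, h4⟩ := grow k hk hiso hch hred hind
  have hK0 : InK (D.FF 0 k) (D.st 0) := (F0_in 0).mono (F0_le_FF _ _)
  have hκ := h3.1.hκ0
  have hv : ∀ i, v i = 0 := by
    intro i
    have e : ψ ((D.st k).w i) / κ =
        ∑ j, K (M i j : ℂ) * (ψ ((D.st 0).w j) / κ₀) * (κ₀ / κ) := by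
      have e0 : (D.st k).w i = ∑ j, algebraMap ℝ F (M i j) * (D.st 0).w j := by
        rw [hM]
        simp only [mulVec, dotProduct, Matrix.map_apply]
      rw [e0, h1.sum _ _ (fun j _ => mul_mem (IntermediateField.algebraMap_mem _ _) (hK0.2 j)),
        Finset.sum_div]
      refine Finset.sum_congr rfl fun j _ => ?_
      rw [h1.2.1 _ (IntermediateField.algebraMap_mem _ _) _ (hK0.2 j), h1.2.2, algebraMap_real]
      field_simp
    have h5 : Cl (ψ ((D.st k).w i) / κ) (v i) := h3.1.hw i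
    have h6 : Cl (ψ ((D.st k).w i) / κ) 0 := by
      rw [e]
      exact MM.cl (MM_sum _ _ fun j _ => MM_mul' (OO_mul (OO_const _) (h2 j).O) h4)
    by_contra hne
    have h7 := h5.sub h6
    rw [sub_self] at h7
    have h8 : Cl (0 : LL) (v i) := h7.congr (sub_zero _)
    exact h8.ne hne rfl
  have := hiso.vu
  simp only [hv, zero_mul, Finset.sum_const_zero] at this
  norm_num at this

end Ch

end Inv38
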