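import Pool.Agent.Lib_helper37.InvWord

/-!
Light rays which come back to their first line after reflections at points near which the mirror is
covered by finitely many spheres and hyperplanes form a null set.
-/

set_option autoImplicit false

namespace Inv38

open Set MeasureTheory
open scoped RealInnerProductSpace

variable {n : ℕ}

/-- near `a` the set `S` is covered by finitely many mirrors -/
def CovAt (S : Set (EuclideanSpace ℝ (Fin n))) (a : EuclideanSpace ℝ (Fin n)) : Prop :=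
  ∃ ρ > 0, ∃ T : Set (Mir n), T.Finite ∧ (∀ M ∈ T, M.Nondeg) ∧
    S ∩ Metric.ball a ρ ⊆ ⋃ M ∈ T, M.carrier

/-- a countable family of mirrors suffices -/
lemma exists_family (hn : 2 ≤ n) (S : Set (EuclideanSpace ℝ (Fin n))) :
    ∃ F : Set (Mir n), F.Countable ∧ (∀ M ∈ F, M.Nondeg) ∧
      ∀ a m, CovAt S a → IsNormal S a m → ∃ M ∈ F, a ∈ M.carrier ∧ M.NormalAt a m := by
  classical
  set B := TopologicalSpace.countableBasis (EuclideanSpace ℝ (Fin n)) with hB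
  have hBb := TopologicalSpace.isBasis_countableBasis (EuclideanSpace ℝ (Fin n))
  have hBc := TopologicalSpace.countable_countableBasis (EuclideanSpace ℝ (Fin n))
  have hT : ∀ V : Set (EuclideanSpace ℝ (Fin n)), ∃ T : Set (Mir n), T.Finite ∧
      (∀ M ∈ T, M.Nondeg) ∧ ((∃ T' : Set (Mir n), T'.Finite ∧ (∀ M ∈ T', M.Nondeg) ∧
        S ∩ V ⊆ ⋃ M ∈ T', M.carrier) → S ∩ V ⊆ ⋃ M ∈ T, M.carrier) := by
    intro V
    by_cases h : ∃ T' : Set (Mir n), T'.Finite ∧ (∀ M ∈ T', M.Nondeg) ∧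
        S ∩ V ⊆ ⋃ M ∈ T', M.carrier
    · obtain ⟨T', h1, h2, h3⟩ := h
      exact ⟨T', h1, h2, fun _ => h3⟩
    · exact ⟨∅, finite_empty, by simp, fun h' => absurd h' h⟩
  choose T hTf hTn hTc using hT
  refine ⟨⋃ V ∈ B, T V, hBc.biUnion fun V _ => (hTf V).countable, ?_, ?_⟩
  · intro M hM
    simp only [mem_iUnion, exists_prop] at hM
    obtain ⟨V, -, hM⟩ := hM
    exact hTn V M hM
  · rintro a m ⟨ρ, hρ, T', h1, h2, h3⟩ hm
    obtain ⟨V, hVB, haV, hVρ⟩ := hBb.mem_nhds_iff.mp (Metric.ball_mem_nhds a hρ)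
    have hcov : S ∩ V ⊆ ⋃ M ∈ T V, M.carrier :=
      hTc V ⟨T', h1, h2, fun y hy => h3 ⟨hy.1, hVρ hy.2⟩⟩
    obtain ⟨M, hM, ha, hN⟩ := normal_of_cover hn hm (hBb.isOpen hVB) haV (hTf V) (hTn V) hcov
    refine ⟨M, ?_, ha, hN⟩
    simp only [mem_iUnion, exists_prop]
    exact ⟨V, hVB, hM⟩

/-- the light ray `x + ℝ v` comes back to its line after `k` reflections from `S`, at points near
which `S` is covered by finitely many mirrors -/
def Closed (S : Set (EuclideanSpace ℝ (Fin n))) (k : ℕ) (x v : EuclideanSpace ℝ (Fin n)) : Prop :=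
  v ≠ 0 ∧ ∃ (a e m : ℕ → EuclideanSpace ℝ (Fin n)) (t : ℕ → ℝ) (τ τ' : ℝ),
    e 0 = v ∧ e k = v ∧
    (∀ i < k, IsNormal S (a i) (m i) ∧ CovAt S (a i) ∧
      e (i + 1) = e i - (2 * ⟪e i, m i⟫) • m i) ∧
    a 0 = x + τ • v ∧ (∀ i, i + 1 < k → 0 < t i ∧ a (i + 1) = a i + t i • e (i + 1)) ∧
    a (k - 1) = x + τ' • v

theorem closed_null (hn : 2 ≤ n) (S : Set (EuclideanSpace ℝ (Fin n))) :
    (volume : Measure (EuclideanSpace ℝ (Fin n) × EuclideanSpace ℝ (Fin n)))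
      {p | ∃ k, 1 ≤ k ∧ Closed S k p.1 p.2} = 0 := by
  classical
  obtain ⟨F, hFc, hFn, hF⟩ := exists_family hn S
  have : Countable F := hFc.to_subtype
  have hsub : {p : EuclideanSpace ℝ (Fin n) × EuclideanSpace ℝ (Fin n) |
      ∃ k, 1 ≤ k ∧ Closed S k p.1 p.2} ⊆
      ⋃ (k : ℕ), ⋃ (w : Fin (k + 1) → F),
        {p | WordPath (k + 1) (fun i => (w (Fin.ofNat (k + 1) i) : Mir n)) p.1 p.2} := by
    rintro ⟨x, v⟩ ⟨k, hk, hv, a, e, m, t, τ, τ', h1, h2, h3, h4, h5, h6⟩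
    obtain ⟨k, rfl⟩ : ∃ k', k = k' + 1 := ⟨k - 1, by omega⟩
    have hw : ∀ i : Fin (k + 1), ∃ M : F, a i ∈ (M : Mir n).carrier ∧
        (M : Mir n).NormalAt (a i) (m i) := by
      intro i
      obtain ⟨g1, g2, -⟩ := h3 i i.2
      obtain ⟨M, hM, g3, g4⟩ := hF _ _ g2 g1
      exact ⟨⟨M, hM⟩, g3, g4⟩
    choose w hw1 hw2 using hw
    simp only [mem_iUnion]
    refine ⟨k, w, hv, a, e, m, t, τ, τ', h1, h2, fun i hi => ?_, h4, h5, h6⟩
    have hi' : ((Fin.ofNat (k + 1) i : Fin (k + 1)) : ℕ) = i := by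
      simp [Fin.ofNat, Nat.mod_eq_of_lt hi]
    have g1 := hw1 (Fin.ofNat (k + 1) i)
    have g2 := hw2 (Fin.ofNat (k + 1) i)
    rw [hi'] at g1 g2
    exact ⟨g1, g2, (h3 i hi).2.2⟩
  refine measure_mono_null hsub ?_
  rw [measure_iUnion_null_iff]
  intro k
  rw [measure_iUnion_null_iff]
  intro w
  exact word_null hn (k + 1) (by omega) _ fun i _ => hFn _ (w _).2

/-- a sphere or a hyperplane is a mirror -/
lemma exists_mir {M : Set (EuclideanSpace ℝ (Fin n))}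
    (hM : (∃ (c : EuclideanSpace ℝ (Fin n)) (r : ℝ), 0 < r ∧ M = Metric.sphere c r) ∨
      ∃ (ν : EuclideanSpace ℝ (Fin n)) (h : ℝ), ν ≠ 0 ∧ M = {y | ⟪ν, y⟫ = h}) :
    ∃ μ : Mir n, μ.Nondeg ∧ M = μ.carrier := by
  rcases hM with ⟨c, r, hr, rfl⟩ | ⟨ν, h, hν, rfl⟩
  · refine ⟨Sum.inl (c, r), hr, ?_⟩
    ext y
    simp [Mir.carrier]
  · have hν' : ‖ν‖ ≠ 0 := norm_ne_zero_iff.mpr hν
    refine ⟨Sum.inr (‖ν‖⁻¹ • ν, ‖ν‖⁻¹ * h), ?_, ?_⟩
    · change ‖‖ν‖⁻¹ • ν‖ = 1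
      rw [norm_smul, norm_inv, norm_norm, inv_mul_cancel₀ hν']
    · ext y
      simp only [Mir.carrier, mem_ofPred_eq, real_inner_smul_left]
      constructor
      · intro h1; rw [h1]
      · intro h1; exact mul_left_cancel₀ (inv_ne_zero hν') h1

/-- covered by finitely many spheres and hyperplanes -/
lemma covAt_of {S : Set (EuclideanSpace ℝ (Fin n))} {a : EuclideanSpace ℝ (Fin n)}
    (h : ∃ ρ > 0, ∃ T : Set (Set (EuclideanSpace ℝ (Fin n))), T.Finite ∧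
      (∀ M ∈ T, (∃ (c : EuclideanSpace ℝ (Fin n)) (r : ℝ), 0 < r ∧ M = Metric.sphere c r) ∨
        ∃ (ν : EuclideanSpace ℝ (Fin n)) (h : ℝ), ν ≠ 0 ∧ M = {y | ⟪ν, y⟫ = h}) ∧
      S ∩ Metric.ball a ρ ⊆ ⋃₀ T) : CovAt S a := by
  classical
  obtain ⟨ρ, hρ, T, hT, hM, hc⟩ := h
  have h2 : ∀ M : Set (EuclideanSpace ℝ (Fin n)), ∃ μ : Mir n, M ∈ T → μ.Nondeg ∧ M = μ.carrier := by
    intro M
    by_cases hMT : M ∈ T
    · obtain ⟨μ, h1, h2⟩ := exists_mir (hM M hMT)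
      exact ⟨μ, fun _ => ⟨h1, h2⟩⟩
    · exact ⟨Sum.inl (0, 0), fun h => absurd h hMT⟩
  choose f hf using h2
  refine ⟨ρ, hρ, f '' T, hT.image f, ?_, ?_⟩
  · rintro _ ⟨M, hMT, rfl⟩
    exact (hf M hMT).1
  · intro y hy
    obtain ⟨M, hMT, hyM⟩ := hc hy
    simp only [mem_iUnion, exists_prop]
    refine ⟨f M, mem_image_of_mem f hMT, ?_⟩
    rw [← (hf M hMT).2]
    exact hyM

end Inv38
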