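import Mathlib

/-!
Reflections of lines in spheres, over an arbitrary field extension of the real numbers.

A state is a point `x` together with a direction `w` (of any length): the particle is at `x + T w`
at time `T`. A letter is a sphere (centre `c`, radius `r`) together with a square root `s`, the
value of `⟨A - c, w⟩` at the reflection point `A`.
-/

set_option autoImplicit false

namespace Inv38

open Matrix

/-- a state -/
@[ext] structure St (n : ℕ) (F : Type*) where
  /-- the point at time zero -/
  x : Fin n → F
  /-- the direction -/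
  w : Fin n → F

/-- a letter -/
structure Lt (n : ℕ) (F : Type*) where
  /-- centre of the sphere -/
  c : Fin n → ℝ
  /-- radius of the sphere -/
  r : ℝ
  /-- the value of `⟨A - c, w⟩` at the reflection point -/
  s : F

section
variable {n : ℕ} {F : Type*} [Field F] [Algebra ℝ F]

/-- a real vector as a vector over `F` -/
def cc (c : Fin n → ℝ) : Fin n → F := fun i => algebraMap ℝ F (c i)

/-- squared length of the direction -/
def nn (σ : St n F) : F := σ.w ⬝ᵥ σ.w

/-- squared length of the bivector `(x - c) ∧ w` -/
def gg (c : Fin n → ℝ) (σ : St n F) : F :=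
  nn σ * ((σ.x - cc c) ⬝ᵥ (σ.x - cc c)) - ((σ.x - cc c) ⬝ᵥ σ.w) ^ 2

/-- time of the reflection -/
def tt (l : Lt n F) (σ : St n F) : F := (l.s - (σ.x - cc l.c) ⬝ᵥ σ.w) / nn σ

/-- reflection point minus centre -/
def aa (l : Lt n F) (σ : St n F) : Fin n → F := (σ.x - cc l.c) + tt l σ • σ.w

/-- direction after the reflection -/
def ww (l : Lt n F) (σ : St n F) : Fin n → F :=
  σ.w - (2 * l.s / (algebraMap ℝ F l.r) ^ 2) • aa l σ

/-- the reflection -/
def step (l : Lt n F) (σ : St n F) : St n F := ⟨σ.x + tt l σ • (σ.w - ww l σ), ww l σ⟩

/-- the letter may be applied to the state: the reflection point is on the sphere -/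
def Ok (l : Lt n F) (σ : St n F) : Prop :=
  0 < l.r ∧ l.s ^ 2 = (algebraMap ℝ F l.r) ^ 2 * nn σ - gg l.c σ

/-- value of a word -/
def run : List (Lt n F) → St n F → St n F
  | [], σ => σ
  | l :: L, σ => run L (step l σ)

/-- all letters of the word may be applied -/
def OkL : List (Lt n F) → St n F → Prop
  | [], _ => True
  | l :: L, σ => Ok l σ ∧ OkL L (step l σ)

/-- value of a word with multiplicities -/
def runE : List (Lt n F × ℕ) → St n F → St n F
  | [], σ => σ
  | p :: L, σ => runE L ((step p.1)^[p.2] σ)

/-- all levels of the word may be applied, the multiplicities are positive -/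
def OkE : List (Lt n F × ℕ) → St n F → Prop
  | [], _ => True
  | p :: L, σ => Ok p.1 σ ∧ 1 ≤ p.2 ∧ OkE L ((step p.1)^[p.2] σ)

open Classical in
/-- reduced: in a run of levels with the same centre the radii are distinct -/
def RedE : List (Lt n F × ℕ) → Prop
  | [] => True
  | p :: L => RedE L ∧ ∀ q ∈ L.takeWhile (fun q => decide (q.1.c = p.1.c)), q.1.r ≠ p.1.r

end

end Inv38
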