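import Pool.Agent.Lib_helper86.Inv.Mono
import Pool.Agent.Lib_helper86.Inv.Step

/-!
Partial homomorphisms into the Hahn field and their extension to a square root.
-/

set_option autoImplicit false

namespace Inv38

section
variable {F : Type*} [Field F] [Algebra ℝ F]

open IntermediateField

/-- psi is a homomorphism on K (and the identity on constants) -/
def HomOn (K : IntermediateField ℝ F) (ψ : F → LL) : Prop :=
  (∀ x ∈ K, ∀ y ∈ K, ψ (x + y) = ψ x + ψ y) ∧ (∀ x ∈ K, ∀ y ∈ K, ψ (x * y) = ψ x * ψ y) ∧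
    ∀ z : ℝ, ψ (algebraMap ℝ F z) = algebraMap ℝ LL z

variable {K : IntermediateField ℝ F} {ψ : F → LL}

lemma HomOn.zero (h : HomOn K ψ) : ψ 0 = 0 := by simpa using h.2.2 0
lemma HomOn.one (h : HomOn K ψ) : ψ 1 = 1 := by simpa using h.2.2 1

lemma HomOn.neg (h : HomOn K ψ) {x : F} (hx : x ∈ K) : ψ (-x) = -ψ x := by
  have h1 : ψ ((-1) * x) = ψ (-1) * ψ x := h.2.1 _ (neg_mem (one_mem K)) _ hx
  have h2 : ψ (-1) = -1 := by simpa using h.2.2 (-1)
  rw [h2] at h1
  simpa using h1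

lemma HomOn.sub (h : HomOn K ψ) {x y : F} (hx : x ∈ K) (hy : y ∈ K) : ψ (x - y) = ψ x - ψ y := by
  rw [sub_eq_add_neg, h.1 _ hx _ (neg_mem hy), h.neg hy, sub_eq_add_neg]

lemma HomOn.pow (h : HomOn K ψ) {x : F} (hx : x ∈ K) (n : ℕ) : ψ (x ^ n) = ψ x ^ n := by
  induction n with
  | zero => simpa using h.one
  | succ n ih => rw [pow_succ, pow_succ, h.2.1 _ (pow_mem hx n) _ hx, ih]

lemma HomOn.ne_zero (h : HomOn K ψ) {x : F} (hx : x ∈ K) (h0 : x ≠ 0) : ψ x ≠ 0 := by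
  intro h1
  have h2 : ψ (x * x⁻¹) = ψ x * ψ x⁻¹ := h.2.1 _ hx _ (inv_mem hx)
  rw [mul_inv_cancel₀ h0, h.one, h1, zero_mul] at h2
  exact one_ne_zero h2

lemma HomOn.inv (h : HomOn K ψ) {x : F} (hx : x ∈ K) : ψ x⁻¹ = (ψ x)⁻¹ := by
  by_cases h0 : x = 0
  · rw [h0, inv_zero, h.zero, inv_zero]
  · refine (inv_eq_of_mul_eq_one_right ?_).symm
    rw [← h.2.1 _ hx _ (inv_mem hx), mul_inv_cancel₀ h0, h.one]

lemma HomOn.div (h : HomOn K ψ) {x y : F} (hx : x ∈ K) (hy : y ∈ K) : ψ (x / y) = ψ x / ψ y := by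
  rw [div_eq_mul_inv, h.2.1 _ hx _ (inv_mem hy), h.inv hy, div_eq_mul_inv]

/-- the field of all a + b s -/
lemma quad_repr (s : F) (hs : s ^ 2 ∈ K) :
    ∀ x ∈ K ⊔ adjoin ℝ {s}, ∃ α ∈ K, ∃ β ∈ K, x = α + β * s := by
  by_cases hsK : s ∈ K
  · intro x hx
    have : K ⊔ adjoin ℝ {s} = K := by
      rw [sup_eq_left, adjoin_le_iff, Set.singleton_subset_iff]; exact hsK
    rw [this] at hx
    exact ⟨x, hx, 0, zero_mem _, by simp⟩
  · have hsub : ∀ α ∈ K, ∀ β ∈ K, α + β * s = 0 → α = 0 ∧ β = 0 := by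
      intro α hα β hβ h
      by_cases hb : β = 0
      · subst hb; simpa using h
      · exfalso; apply hsK
        have : s = -α / β := by
          field_simp
          linear_combination h
        rw [this]; exact div_mem (neg_mem hα) hβ
    let M : IntermediateField ℝ F :=
      { carrier := {x | ∃ α ∈ K, ∃ β ∈ K, x = α + β * s}
        mul_mem' := by
          rintro x y ⟨α, hα, β, hβ, rfl⟩ ⟨α', hα', β', hβ', rfl⟩
          refine ⟨α * α' + β * β' * s ^ 2, add_mem (mul_mem hα hα') (mul_mem (mul_mem hβ hβ') hs),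
            α * β' + β * α', add_mem (mul_mem hα hβ') (mul_mem hβ hα'), by ring⟩
        add_mem' := by
          rintro x y ⟨α, hα, β, hβ, rfl⟩ ⟨α', hα', β', hβ', rfl⟩
          exact ⟨α + α', add_mem hα hα', β + β', add_mem hβ hβ', by ring⟩
        algebraMap_mem' := by
          intro z
          exact ⟨algebraMap ℝ F z, K.algebraMap_mem z, 0, zero_mem _, by simp⟩
        inv_mem' := by
          rintro x ⟨α, hα, β, hβ, rfl⟩
          by_cases hx : α + β * s = 0
          · refine ⟨0, zero_mem _, 0, zero_mem _, ?_⟩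
            rw [hx]; simp
          · have hx' : α - β * s ≠ 0 := by
              intro h
              have := hsub α hα (-β) (neg_mem hβ) (by linear_combination h)
              apply hx
              rw [this.1, neg_eq_zero.mp this.2]; ring
            have hn : α ^ 2 - β ^ 2 * s ^ 2 ≠ 0 := by
              have : α ^ 2 - β ^ 2 * s ^ 2 = (α + β * s) * (α - β * s) := by ring
              rw [this]; exact mul_ne_zero hx hx'
            have hnK : α ^ 2 - β ^ 2 * s ^ 2 ∈ K :=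
              sub_mem (pow_mem hα 2) (mul_mem (pow_mem hβ 2) hs)
            refine ⟨α / (α ^ 2 - β ^ 2 * s ^ 2), div_mem hα hnK,
              -β / (α ^ 2 - β ^ 2 * s ^ 2), div_mem (neg_mem hβ) hnK, ?_⟩
            field_simp
            ring }
    have hKM : K ⊔ adjoin ℝ {s} ≤ M := by
      refine sup_le ?_ ?_
      · intro x hx; exact ⟨x, hx, 0, zero_mem _, by simp⟩
      · rw [adjoin_le_iff, Set.singleton_subset_iff]
        exact ⟨0, zero_mem _, 1, one_mem _, by simp⟩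
    intro x hx
    exact hKM hx

open Classical in
/-- extension of a homomorphism to a quadratic extension, with prescribed square root -/
lemma ext_hom (h : HomOn K ψ) {s : F} (hs : s ^ 2 ∈ K) (hsK : s ∉ K) {S : LL}
    (hS : S ^ 2 = ψ (s ^ 2)) :
    ∃ ψ' : F → LL, HomOn (K ⊔ adjoin ℝ {s}) ψ' ∧ (∀ x ∈ K, ψ' x = ψ x) ∧ ψ' s = S := by
  have huniq : ∀ α ∈ K, ∀ β ∈ K, ∀ α' ∈ K, ∀ β' ∈ K, α + β * s = α' + β' * s →
      α = α' ∧ β = β' := by
    intro α hα β hβ α' hα' β' hβ' he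
    have hb : β = β' := by
      by_contra hne
      apply hsK
      have hne' : β - β' ≠ 0 := sub_ne_zero.mpr hne
      have : s = (α' - α) / (β - β') := by
        field_simp
        linear_combination he
      rw [this]; exact div_mem (sub_mem hα' hα) (sub_mem hβ hβ')
    refine ⟨?_, hb⟩
    subst hb
    linear_combination he
  let ψ' : F → LL := fun x =>
    if hx : ∃ q : F × F, q.1 ∈ K ∧ q.2 ∈ K ∧ x = q.1 + q.2 * s then
      ψ hx.choose.1 + ψ hx.choose.2 * S else 0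
  have hval : ∀ α ∈ K, ∀ β ∈ K, ψ' (α + β * s) = ψ α + ψ β * S := by
    intro α hα β hβ
    have hx : ∃ q : F × F, q.1 ∈ K ∧ q.2 ∈ K ∧ α + β * s = q.1 + q.2 * s :=
      ⟨(α, β), hα, hβ, rfl⟩
    have h1 : ψ' (α + β * s) = ψ hx.choose.1 + ψ hx.choose.2 * S := dif_pos hx
    obtain ⟨ha, hb, hc⟩ := hx.choose_spec
    obtain ⟨e1, e2⟩ := huniq _ hα _ hβ _ ha _ hb hc
    rw [h1, ← e1, ← e2]
  refine ⟨ψ', ⟨?_, ?_, ?_⟩, ?_, ?_⟩
  · intro x hx y hy
    obtain ⟨α, hα, β, hβ, rfl⟩ := quad_repr s hs x hx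
    obtain ⟨α', hα', β', hβ', rfl⟩ := quad_repr s hs y hy
    have e : α + β * s + (α' + β' * s) = (α + α') + (β + β') * s := by ring
    rw [e, hval _ (add_mem hα hα') _ (add_mem hβ hβ'), hval _ hα _ hβ, hval _ hα' _ hβ',
      h.1 _ hα _ hα', h.1 _ hβ _ hβ']
    ring
  · intro x hx y hy
    obtain ⟨α, hα, β, hβ, rfl⟩ := quad_repr s hs x hx
    obtain ⟨α', hα', β', hβ', rfl⟩ := quad_repr s hs y hy
    have e : (α + β * s) * (α' + β' * s) = (α * α' + β * β' * s ^ 2) + (α * β' + β * α') * s := by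
      ring
    rw [e, hval _ (add_mem (mul_mem hα hα') (mul_mem (mul_mem hβ hβ') hs)) _
      (add_mem (mul_mem hα hβ') (mul_mem hβ hα')), hval _ hα _ hβ, hval _ hα' _ hβ',
      h.1 _ (mul_mem hα hα') _ (mul_mem (mul_mem hβ hβ') hs), h.1 _ (mul_mem hα hβ') _
      (mul_mem hβ hα'), h.2.1 _ hα _ hα', h.2.1 _ (mul_mem hβ hβ') _ hs, h.2.1 _ hβ _ hβ',
      h.2.1 _ hα _ hβ', h.2.1 _ hβ _ hα', ← hS]
    ring
  · intro z
    have e : algebraMap ℝ F z = algebraMap ℝ F z + 0 * s := by ring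
    rw [e, hval _ (K.algebraMap_mem z) _ (zero_mem _), h.2.2, h.zero]
    ring
  · intro x hx
    have e : x = x + 0 * s := by ring
    rw [e, hval _ hx _ (zero_mem _), h.zero]
    ring_nf
  · have e : s = 0 + 1 * s := by ring
    rw [e, hval _ (zero_mem _) _ (one_mem _), h.zero, h.one]
    ring

open Classical in
/-- the first homomorphism -/
lemma base_hom {ι : Type*} {η : ι → F} (h : AlgebraicIndependent ℝ η) {Z : ι → LL}
    (h' : AlgebraicIndependent ℝ Z) :
    ∃ ψ : F → LL, HomOn (adjoin ℝ (Set.range η)) ψ ∧ ∀ i, ψ (η i) = Z i := by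
  have hw : ∀ i, η i ∈ adjoin ℝ (Set.range η) := fun i => subset_adjoin ℝ _ ⟨i, rfl⟩
  let φ : adjoin ℝ (Set.range η) →ₐ[ℝ] LL :=
    (IntermediateField.val _).comp
      (h'.aevalEquivField.toAlgHom.comp h.aevalEquivField.symm.toAlgHom)
  have hφ : ∀ i, φ ⟨η i, hw i⟩ = Z i := by
    intro i
    have h1 : h.aevalEquivField.symm ⟨η i, hw i⟩ =
        algebraMap (MvPolynomial ι ℝ) (FractionRing (MvPolynomial ι ℝ))
          (MvPolynomial.X i) := by
      rw [AlgEquiv.symm_apply_eq]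
      apply Subtype.ext
      have h2 := h.aevalEquivField_algebraMap_apply_coe (MvPolynomial.X i)
      rw [MvPolynomial.aeval_X] at h2
      exact h2.symm
    have h3 : φ ⟨η i, hw i⟩ =
      ((h'.aevalEquivField (h.aevalEquivField.symm ⟨η i, hw i⟩) : _) : LL) := rfl
    rw [h3, h1]
    have h2 := h'.aevalEquivField_algebraMap_apply_coe (MvPolynomial.X i)
    rw [MvPolynomial.aeval_X] at h2
    exact h2
  let ψ : F → LL := fun x => if hx : x ∈ adjoin ℝ (Set.range η) then φ ⟨x, hx⟩ else 0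
  have hψ : ∀ x (hx : x ∈ adjoin ℝ (Set.range η)), ψ x = φ ⟨x, hx⟩ := fun x hx => dif_pos hx
  refine ⟨ψ, ⟨?_, ?_, ?_⟩, ?_⟩
  · intro x hx y hy
    rw [hψ _ hx, hψ _ hy, hψ _ (add_mem hx hy), ← map_add]
    rfl
  · intro x hx y hy
    rw [hψ _ hx, hψ _ hy, hψ _ (mul_mem hx hy), ← map_mul]
    rfl
  · intro z
    rw [hψ _ (IntermediateField.algebraMap_mem _ z)]
    exact φ.commutes z
  · intro i
    rw [hψ _ (hw i)]
    exact hφ i

end

end Inv38
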