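import Pool.Agent.Lib_helper86.Inv.Core
import Pool.Agent.Lib_helper32.InvIso

/-!
Relations between reflections in spheres are trivial: the statement for words.
-/

set_option autoImplicit false

namespace Inv38

open Matrix

variable {n : ℕ} {F : Type*} [Field F] [Algebra ℝ F]

lemma runE_append (L L' : List (Lt n F × ℕ)) (σ : St n F) :
    runE (L ++ L') σ = runE L' (runE L σ) := by
  induction L generalizing σ with
  | nil => rfl
  | cons p L ih => exact ih _

lemma runE_take_succ (L : List (Lt n F × ℕ)) (σ : St n F) (i : ℕ) (hi : i < L.length) :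
    runE (L.take (i + 1)) σ = (step (L[i]).1)^[(L[i]).2] (runE (L.take i) σ) := by
  rw [← List.take_append_getElem hi, runE_append]
  rfl

lemma OkE_get (L : List (Lt n F × ℕ)) (σ : St n F) (h : OkE L σ) (i : ℕ) (hi : i < L.length) :
    Ok (L[i]).1 (runE (L.take i) σ) ∧ 1 ≤ (L[i]).2 := by
  induction L generalizing σ i with
  | nil => exact absurd hi (by simp)
  | cons p L ih =>
    rcases i with _ | i
    · exact ⟨h.1, h.2.1⟩
    · have hi' : i < L.length := by simpa using hi
      exact ih _ h.2.2 i hi'

lemma nn_runE (L : List (Lt n F × ℕ)) (σ : St n F) (hN : nn σ ≠ 0) (h : OkE L σ) :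
    nn (runE L σ) = nn σ := by
  induction L generalizing σ with
  | nil => rfl
  | cons p L ih =>
    have h1 := (nn_iter p.1 p.2 σ hN h.1).1
    show nn (runE L ((step p.1)^[p.2] σ)) = nn σ
    rw [ih _ (by rw [h1]; exact hN) h.2.2, h1]

lemma OkE_take (L : List (Lt n F × ℕ)) (σ : St n F) (h : OkE L σ) (i : ℕ) :
    OkE (L.take i) σ := by
  induction L generalizing σ i with
  | nil => simpa using h
  | cons p L ih =>
    rcases i with _ | i
    · exact trivial
    · exact ⟨h.1, h.2.1, ih _ h.2.2 i⟩

lemma RedE_get (L : List (Lt n F × ℕ)) (h : RedE L) (i j : ℕ) (hij : i < j) (hj : j < L.length)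
    (hc : ∀ l, i < l → (hl : l ≤ j) → (L[l]'(by omega)).1.c = (L[i]'(by omega)).1.c) :
    (L[j]).1.r ≠ (L[i]'(by omega)).1.r := by
  classical
  induction L generalizing i j with
  | nil => exact absurd hj (by simp)
  | cons p L ih =>
    rcases i with _ | i
    · obtain ⟨j, rfl⟩ : ∃ j', j = j' + 1 := ⟨j - 1, by omega⟩
      have hj' : j < L.length := by simpa using hj
      refine h.2 _ ?_
      -- all elements up to index j are in the first run
      have key : ∀ m (hm : m < L.length), m ≤ j →
          L[m] ∈ L.takeWhile (fun q => decide (q.1.c = p.1.c)) := by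
        intro m hm hmj
        have hlen : m < (L.takeWhile (fun q => decide (q.1.c = p.1.c))).length := by
          by_contra hcon
          push Not at hcon
          set t := (L.takeWhile (fun q => decide (q.1.c = p.1.c))).length with ht
          have ht' : t < L.length := lt_of_le_of_lt hcon hm
          have h1 : (L[t]).1.c = p.1.c := by
            have := hc (t + 1) (by omega) (by omega)
            simpa using this
          have h2 := List.takeWhile_append_dropWhile (p := fun q => decide (q.1.c = p.1.c)) (l := L)
          have h3 : (L.dropWhile (fun q => decide (q.1.c = p.1.c))) ≠ [] := by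
            intro h0
            rw [h0, List.append_nil] at h2
            rw [h2] at ht
            omega
          have h4 := List.head_dropWhile_not (p := fun q => decide (q.1.c = p.1.c)) (l := L) h3
          have h5 : (L.dropWhile (fun q => decide (q.1.c = p.1.c))).head h3 = L[t] := by
            have h6 : L[t]? = some ((L.dropWhile (fun q => decide (q.1.c = p.1.c))).head h3) := by
              conv_lhs => rw [← h2]
              rw [List.getElem?_append_right (le_refl _)]
              simp only [← ht, Nat.sub_self]
              rw [← List.head?_eq_getElem?, List.head?_eq_some_head h3]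
            rw [List.getElem?_eq_getElem ht'] at h6
            exact (Option.some.inj h6).symm
          rw [h5, h1] at h4
          simp at h4
        have h7 : (L.takeWhile (fun q => decide (q.1.c = p.1.c)))[m] = L[m] := by
          have h2 := List.takeWhile_append_dropWhile (p := fun q => decide (q.1.c = p.1.c)) (l := L)
          have h8 : L[m]? = (L.takeWhile (fun q => decide (q.1.c = p.1.c)))[m]? := by
            conv_lhs => rw [← h2]
            rw [List.getElem?_append_left hlen]
          rw [List.getElem?_eq_getElem hm, List.getElem?_eq_getElem hlen] at h8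
          exact (Option.some.inj h8).symm
        rw [← h7]
        exact List.getElem_mem hlen
      have := key j hj' le_rfl
      simpa using this
    · obtain ⟨j, rfl⟩ : ∃ j', j = j' + 1 := ⟨j - 1, by omega⟩
      have hj' : j < L.length := by simpa using hj
      have := ih h.1 i j (by omega) hj' (by
        intro l hl hl'
        have := hc (l + 1) (by omega) (by omega)
        simpa using this)
      simpa using this

lemma nn_ne_zero (hn : 2 ≤ n) (σ : St n F)
    (hind : AlgebraicIndependent ℝ (Sum.elim σ.x σ.w)) : nn σ ≠ 0 := by
  intro h0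
  have h1 : MvPolynomial.aeval (Sum.elim σ.x σ.w)
      (∑ i : Fin n, MvPolynomial.X (Sum.inr i) * MvPolynomial.X (Sum.inr i) :
        MvPolynomial (Fin n ⊕ Fin n) ℝ) = 0 := by
    rw [map_sum]
    simp only [map_mul, MvPolynomial.aeval_X, Sum.elim_inr]
    exact h0
  have h2 := (algebraicIndependent_iff.mp hind) _ h1
  have h3 := congrArg (MvPolynomial.eval (fun _ : Fin n ⊕ Fin n => (1 : ℝ))) h2
  rw [map_sum] at h3
  simp only [map_mul, MvPolynomial.eval_X, mul_one, Finset.sum_const, Finset.card_univ,
    Fintype.card_fin, nsmul_eq_mul, map_zero] at h3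
  have : (n : ℝ) ≠ 0 := by
    have : (2 : ℝ) ≤ n := by exact_mod_cast hn
    linarith
  exact this h3

/-- **Relations between reflections in spheres are trivial.** A word of reflections in spheres,
applied to a generic line over a field, whose final direction is a real linear function of the
initial direction, acts trivially (also on the marked point of the line). -/
theorem core (hn : 2 ≤ n) (σ : St n F)
    (hind : AlgebraicIndependent ℝ (Sum.elim σ.x σ.w)) (L : List (Lt n F)) (hL : OkL L σ)
    (M : Matrix (Fin n) (Fin n) ℝ)
    (hM : (run L σ).w = (M.map (algebraMap ℝ F)).mulVec σ.w) : run L σ = σ := by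
  classical
  have hN := nn_ne_zero hn σ hind
  obtain ⟨L', h1, h2, h3⟩ := reduce L σ hN hL
  rw [← h3] at hM ⊢
  rcases L' with _ | ⟨p₀, L''⟩
  · rfl
  exfalso
  set L' := p₀ :: L'' with hL'
  let d : Lt n F × ℕ := p₀
  let D : Ch n F :=
    { l := fun i => (L'.getD i d).1
      e := fun i => (L'.getD i d).2
      st := fun i => runE (L'.take i) σ }
  have hget : ∀ i (hi : i < L'.length), L'.getD i d = L'[i] := fun i hi => by
    rw [List.getD_eq_getElem?_getD, List.getElem?_eq_getElem hi]; rfl
  have hch : D.IsCh 0 L'.length := by
    intro i _ hi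
    obtain ⟨g1, g2⟩ := OkE_get L' σ h1 i hi
    refine ⟨?_, ?_, ?_, ?_⟩
    · show Ok (L'.getD i d).1 _
      rw [hget i hi]; exact g1
    · show nn (runE (L'.take i) σ) ≠ 0
      rw [nn_runE _ σ hN (OkE_take L' σ h1 i)]; exact hN
    · show 1 ≤ (L'.getD i d).2
      rw [hget i hi]; exact g2
    · show runE (L'.take (i + 1)) σ = (step (L'.getD i d).1)^[(L'.getD i d).2] _
      rw [hget i hi]; exact runE_take_succ L' σ i hi
  have hred : D.Red 0 L'.length := by
    intro i j _ hij hj hc
    show (L'.getD j d).1.r ≠ (L'.getD i d).1.r
    rw [hget i (by omega), hget j hj]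
    refine RedE_get L' h2 i j hij hj ?_
    intro l hl hl'
    have := hc l hl hl'
    change (L'.getD l d).1.c = (L'.getD i d).1.c at this
    rwa [hget i (by omega), hget l (by omega)] at this
  -- the isotropic vector
  let S : Finset (Fin n → ℝ) :=
    (((Finset.range L'.length ×ˢ Finset.range L'.length).image
      fun q => fun k => (D.l q.1).c k - (D.l q.2).c k).filter fun d => d ≠ 0)
  obtain ⟨v, u, hv, hu, hvu, hS⟩ := exists_iso hn S (fun d hd => (Finset.mem_filter.mp hd).2)
  have hiso : Iso D L'.length v u := by
    refine ⟨hv, hu, hvu, fun i hi j hj hne => ?_⟩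
    refine hS _ (Finset.mem_filter.mpr ⟨Finset.mem_image.mpr ⟨(i, j), ?_, rfl⟩, ?_⟩)
    · exact Finset.mem_product.mpr ⟨Finset.mem_range.mpr hi, Finset.mem_range.mpr hj⟩
    · intro h0
      apply hne
      funext k
      have := congrFun h0 k
      simp only [Pi.zero_apply] at this
      linarith
  have hk : 1 ≤ L'.length := by rw [hL']; simp
  have h0 : D.st 0 = σ := rfl
  have hlast : D.st L'.length = runE L' σ := by
    show runE (L'.take L'.length) σ = _
    rw [List.take_length]
  refine Ch.no_return (D := D) L'.length hk hiso hch hred hind M ?_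
  rw [hlast, h0]
  exact hM

end Inv38
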