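import Pool.Agent.Lib_helper86.Inv.Step

/-!
The foot vector of a line relative to a centre, and its behaviour under reflections.
-/

set_option autoImplicit false

namespace Inv38.Ft

open Matrix Inv38

variable {n : ℕ} {F : Type*} [Field F] [Algebra ℝ F]

/-- component of `x - c` orthogonal to the direction -/
def foot (c : Fin n → ℝ) (σ : St n F) : Fin n → F :=
  (σ.x - cc c) - (((σ.x - cc c) ⬝ᵥ σ.w) / nn σ) • σ.w

lemma foot_dot_w (c : Fin n → ℝ) {σ : St n F} (hN : nn σ ≠ 0) : foot c σ ⬝ᵥ σ.w = 0 := by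
  unfold foot
  rw [sub_dotProduct, smul_dotProduct, smul_eq_mul]
  show _ - _ / nn σ * nn σ = 0
  rw [div_mul_cancel₀ _ hN, sub_self]

lemma w_dot_foot (c : Fin n → ℝ) {σ : St n F} (hN : nn σ ≠ 0) : σ.w ⬝ᵥ foot c σ = 0 := by
  rw [dotProduct_comm]; exact foot_dot_w c hN

lemma gg_eq (c : Fin n → ℝ) {σ : St n F} (hN : nn σ ≠ 0) :
    gg c σ = nn σ * (foot c σ ⬝ᵥ foot c σ) := by
  unfold gg foot
  generalize σ.x - cc c = y
  rw [sub_dotProduct, dotProduct_sub, dotProduct_sub, smul_dotProduct, smul_dotProduct,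
    dotProduct_smul, dotProduct_smul, smul_eq_mul, smul_eq_mul, smul_eq_mul, smul_eq_mul,
    dotProduct_comm σ.w y]
  show _ = nn σ * (y ⬝ᵥ y - _ / nn σ * (y ⬝ᵥ σ.w) - (_ / nn σ * (y ⬝ᵥ σ.w) -
    _ / nn σ * (_ / nn σ * nn σ)))
  field_simp
  ring

lemma aa_eq (l : Lt n F) {σ : St n F} :
    aa l σ = foot l.c σ + (l.s / nn σ) • σ.w := by
  unfold aa foot tt
  funext i
  simp only [Pi.add_apply, Pi.sub_apply, Pi.smul_apply, smul_eq_mul]
  ring

lemma aa_dot_w (l : Lt n F) {σ : St n F} (hN : nn σ ≠ 0) : aa l σ ⬝ᵥ σ.w = l.s := by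
  rw [aa_eq l, add_dotProduct, foot_dot_w _ hN, smul_dotProduct, smul_eq_mul, zero_add]
  show _ / nn σ * nn σ = _
  rw [div_mul_cancel₀ _ hN]

lemma aa_dot_aa (l : Lt n F) {σ : St n F} (hN : nn σ ≠ 0) (h : Ok l σ) :
    aa l σ ⬝ᵥ aa l σ = (algebraMap ℝ F l.r) ^ 2 := by
  have h1 := h.2
  rw [gg_eq _ hN] at h1
  rw [aa_eq l, add_dotProduct, dotProduct_add, dotProduct_add, smul_dotProduct, smul_dotProduct,
    dotProduct_smul, dotProduct_smul, foot_dot_w _ hN, w_dot_foot _ hN]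
  simp only [smul_eq_mul, mul_zero, add_zero, zero_add]
  show _ + _ / nn σ * (_ / nn σ * nn σ) = _
  field_simp
  linear_combination h1

lemma r_ne {l : Lt n F} {σ : St n F} (h : Ok l σ) : algebraMap ℝ F l.r ≠ 0 := by
  rw [Ne, FaithfulSMul.algebraMap_eq_zero_iff]
  exact h.1.ne'

/-- the length of the direction is preserved -/
lemma nn_step (l : Lt n F) {σ : St n F} (hN : nn σ ≠ 0) (h : Ok l σ) :
    nn (step l σ) = nn σ := by
  have hr := r_ne h
  show ww l σ ⬝ᵥ ww l σ = nn σ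
  unfold ww
  rw [sub_dotProduct, dotProduct_sub, dotProduct_sub, smul_dotProduct, smul_dotProduct,
    dotProduct_smul, dotProduct_smul, dotProduct_comm σ.w (aa l σ), aa_dot_w l hN,
    aa_dot_aa l hN h]
  simp only [smul_eq_mul]
  show nn σ - _ - _ = _
  field_simp
  ring

/-- the direction after the reflection, in terms of direction and foot -/
lemma w_step (l : Lt n F) {σ : St n F} :
    (step l σ).w = (1 - 2 * l.s ^ 2 / (nn σ * (algebraMap ℝ F l.r) ^ 2)) • σ.w -
      (2 * l.s / (algebraMap ℝ F l.r) ^ 2) • foot l.c σ := by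
  show ww l σ = _
  unfold ww
  rw [aa_eq l]
  funext i
  simp only [Pi.sub_apply, Pi.add_apply, Pi.smul_apply, smul_eq_mul]
  ring

/-- the foot after the reflection -/
lemma foot_step (l : Lt n F) {σ : St n F} (hN : nn σ ≠ 0) (h : Ok l σ) :
    foot l.c (step l σ) =
      (1 - 2 * l.s ^ 2 / (nn σ * (algebraMap ℝ F l.r) ^ 2)) • foot l.c σ +
      (2 * l.s * (foot l.c σ ⬝ᵥ foot l.c σ) / (nn σ * (algebraMap ℝ F l.r) ^ 2)) • σ.w := by
  have hr := r_ne h
  have hN' := nn_step l hN h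
  have h1 := h.2
  rw [gg_eq _ hN] at h1
  -- the new position relative to the centre is `aa - tt • ww`
  have hx : (step l σ).x - cc l.c = aa l σ - tt l σ • ww l σ := by
    show (σ.x + tt l σ • (σ.w - ww l σ)) - cc l.c = _
    unfold aa
    funext i
    simp only [Pi.sub_apply, Pi.add_apply, Pi.smul_apply, smul_eq_mul]
    ring
  have haw : aa l σ ⬝ᵥ ww l σ = -l.s := by
    unfold ww
    rw [dotProduct_sub, dotProduct_smul, aa_dot_w l hN, aa_dot_aa l hN h, smul_eq_mul]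
    field_simp
    ring
  have hww : ww l σ ⬝ᵥ ww l σ = nn σ := hN'
  have hd : ((step l σ).x - cc l.c) ⬝ᵥ (step l σ).w = -l.s - tt l σ * nn σ := by
    rw [hx]
    show (aa l σ - tt l σ • ww l σ) ⬝ᵥ ww l σ = _
    rw [sub_dotProduct, smul_dotProduct, haw, hww, smul_eq_mul]
  have hf : foot l.c (step l σ) = aa l σ + (l.s / nn σ) • ww l σ := by
    unfold foot
    rw [hd, hN', hx]
    show aa l σ - tt l σ • ww l σ - ((-l.s - tt l σ * nn σ) / nn σ) • ww l σ = _
    funext i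
    simp only [Pi.sub_apply, Pi.add_apply, Pi.smul_apply, smul_eq_mul]
    field_simp
    ring
  rw [hf]
  have hw := w_step l (σ := σ)
  have hw' : ww l σ = (1 - 2 * l.s ^ 2 / (nn σ * (algebraMap ℝ F l.r) ^ 2)) • σ.w -
      (2 * l.s / (algebraMap ℝ F l.r) ^ 2) • foot l.c σ := hw
  rw [hw', aa_eq l]
  funext i
  simp only [Pi.sub_apply, Pi.add_apply, Pi.smul_apply, smul_eq_mul]
  have h2 : foot l.c σ ⬝ᵥ foot l.c σ = (algebraMap ℝ F l.r) ^ 2 - l.s ^ 2 / nn σ := by
    field_simp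
    linear_combination h1
  rw [h2]
  field_simp
  ring

/-- the squared foot is preserved -/
lemma footsq_step (l : Lt n F) {σ : St n F} (hN : nn σ ≠ 0) (h : Ok l σ) :
    foot l.c (step l σ) ⬝ᵥ foot l.c (step l σ) = foot l.c σ ⬝ᵥ foot l.c σ := by
  have hr := r_ne h
  have h1 := h.2
  rw [gg_eq _ hN] at h1
  set P := foot l.c σ ⬝ᵥ foot l.c σ with hP
  have h3 : l.s ^ 2 = nn σ * ((algebraMap ℝ F l.r) ^ 2 - P) := by rw [h1]; ring
  rw [foot_step l hN h, add_dotProduct, dotProduct_add, dotProduct_add, smul_dotProduct,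
    smul_dotProduct, dotProduct_smul, dotProduct_smul, foot_dot_w _ hN,
    smul_dotProduct, smul_dotProduct, dotProduct_smul, dotProduct_smul, w_dot_foot _ hN]
  simp only [smul_eq_mul, mul_zero, add_zero, zero_add, ← hP]
  show _ + _ * (_ * nn σ) = _
  have h4 : (2 * l.s * P / (nn σ * (algebraMap ℝ F l.r) ^ 2)) *
      ((2 * l.s * P / (nn σ * (algebraMap ℝ F l.r) ^ 2)) * nn σ) =
      4 * (l.s ^ 2) * P ^ 2 / (nn σ * (algebraMap ℝ F l.r) ^ 4) := by
    field_simp
    ring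
  rw [h4, h3]
  field_simp
  ring

/-- the letter stays applicable -/
lemma ok_step (l : Lt n F) {σ : St n F} (hN : nn σ ≠ 0) (h : Ok l σ) : Ok l (step l σ) := by
  refine ⟨h.1, ?_⟩
  have hN' : nn (step l σ) ≠ 0 := by rw [nn_step l hN h]; exact hN
  rw [h.2, gg_eq _ hN, gg_eq _ hN', nn_step l hN h, footsq_step l hN h]

/-- change of centre -/
lemma foot_change (c c' : Fin n → ℝ) {σ : St n F} (hN : nn σ ≠ 0) :
    foot c' σ = foot c σ + (cc (fun i => c i - c' i)) -
      (((cc (fun i => c i - c' i) : Fin n → F) ⬝ᵥ σ.w) / nn σ) • σ.w := by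
  have h1 : (σ.x - cc c' : Fin n → F) = (σ.x - cc c) + cc (fun i => c i - c' i) := by
    funext i
    simp only [Pi.sub_apply, Pi.add_apply, cc, map_sub]
    ring
  unfold foot
  rw [h1, add_dotProduct]
  funext i
  simp only [Pi.sub_apply, Pi.add_apply, Pi.smul_apply, smul_eq_mul]
  field_simp
  ring

/-- the squared foot under a change of centre -/
lemma footsq_change (c c' : Fin n → ℝ) {σ : St n F} (hN : nn σ ≠ 0) :
    foot c' σ ⬝ᵥ foot c' σ = foot c σ ⬝ᵥ foot c σ +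
      2 * (foot c σ ⬝ᵥ (cc (fun i => c i - c' i))) +
      (cc (fun i => c i - c' i) : Fin n → F) ⬝ᵥ (cc (fun i => c i - c' i)) -
      ((cc (fun i => c i - c' i) : Fin n → F) ⬝ᵥ σ.w) ^ 2 / nn σ := by
  set d : Fin n → F := cc (fun i => c i - c' i) with hd
  set z := foot c σ with hz
  have hzw : z ⬝ᵥ σ.w = 0 := foot_dot_w c hN
  have hww : σ.w ⬝ᵥ σ.w = nn σ := rfl
  rw [foot_change c c' hN, ← hd, ← hz]
  rw [sub_dotProduct, dotProduct_sub, dotProduct_sub, add_dotProduct, dotProduct_add,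
    dotProduct_add, smul_dotProduct, smul_dotProduct, dotProduct_smul, dotProduct_smul,
    dotProduct_add, add_dotProduct, hzw, dotProduct_comm σ.w z, hzw, dotProduct_comm σ.w d,
    dotProduct_comm d z, hww]
  simp only [smul_eq_mul]
  field_simp
  ring

end Inv38.Ft
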