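import Mathlib

/-!
The field of germs of real functions along an ultrafilter, as a real algebra.
-/

set_option autoImplicit false

namespace Inv38

open Filter

/-- constant germs -/
def constHom {α : Type*} (U : Ultrafilter α) : ℝ →+* Germ (U : Filter α) ℝ where
  toFun c := ((fun _ : α => c : α → ℝ) : Germ (U : Filter α) ℝ)
  map_one' := rfl
  map_mul' _ _ := rfl
  map_zero' := rfl
  map_add' _ _ := rfl

noncomputable instance germAlgebra {α : Type*} (U : Ultrafilter α) :
    Algebra ℝ (Germ (U : Filter α) ℝ) where
  algebraMap := constHom U
  commutes' r x := mul_comm _ _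
  smul_def' r x := by
    induction x using Germ.inductionOn with
    | _ f => rfl

theorem algebraMap_germ {α : Type*} (U : Ultrafilter α) (c : ℝ) :
    algebraMap ℝ (Germ (U : Filter α) ℝ) c = ((fun _ : α => c : α → ℝ) : Germ (U : Filter α) ℝ) :=
  rfl

end Inv38
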