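import Pool.Agent.Lib_helper86.Inv.Hahn

/-!
Monomials: domination, independence, a non-square; the exchange lemma for algebraic independence.
-/

set_option autoImplicit false

namespace Inv38

lemma pos_of {f : ℕ → ℤ} (j : ℕ) (h : ∀ i < j, f i = 0) (hj : 0 < f j) : (0 : Gm) < toLex f :=
  ⟨j, fun i hi => (h i hi).symm, hj⟩

lemma single_mul_single' (f g : ℕ → ℤ) (a b : ℂ) :
    (HahnSeries.single (toLex f) a : LL) * HahnSeries.single (toLex g) b =
      HahnSeries.single (toLex (f + g)) (a * b) := by
  rw [HahnSeries.single_mul_single, toLex_add]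

lemma single_pow' (f : ℕ → ℤ) (a : ℂ) (k : ℕ) :
    (HahnSeries.single (toLex f) a : LL) ^ k = HahnSeries.single (toLex (k • f)) (a ^ k) := by
  rw [HahnSeries.single_pow, toLex_smul]
  rfl

lemma MM_single {f : ℕ → ℤ} {a : ℂ} (ha : a ≠ 0) (h : (0 : Gm) < toLex f) :
    MM (HahnSeries.single (toLex f) a : LL) := by
  unfold MM
  rw [vv_apply, HahnSeries.orderTop_single ha, WithTop.coe_pos]
  exact h

lemma MM_mono (j : ℕ) : MM (mono j) := by
  refine MM_single one_ne_zero (pos_of j ?_ ?_)
  · intro i hi
    exact Pi.single_eq_of_ne (by omega) _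
  · simp

/-- x is negligible with respect to all powers of the k-th and (k+1)-st monomials -/
def DS (k : ℕ) (x : LL) : Prop := ∀ a b : ℕ, MM (x * ((mono k)⁻¹) ^ a * ((mono (k + 1))⁻¹) ^ b)

lemma DS.M {k : ℕ} {x : LL} (h : DS k x) : MM x := by simpa using h 0 0

lemma DS_mono {k j : ℕ} (hj : j < k) : DS k (mono j) := by
  intro a b
  rw [mono_inv, mono_inv, mono, single_pow', single_pow', single_mul_single', single_mul_single']
  refine MM_single (by simp) (pos_of j ?_ ?_)
  · intro i hi
    have h1 : i ≠ j := by omega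
    have h2 : i ≠ k := by omega
    have h3 : i ≠ k + 1 := by omega
    simp [h1, h2, h3]
  · have h2 : j ≠ k := by omega
    have h3 : j ≠ k + 1 := by omega
    simp [h2, h3]

lemma DS.add {k : ℕ} {x y : LL} (hx : DS k x) (hy : DS k y) : DS k (x + y) := by
  intro a b
  have := MM_add (hx a b) (hy a b)
  rwa [← add_mul, ← add_mul] at this

lemma DS.neg {k : ℕ} {x : LL} (hx : DS k x) : DS k (-x) := by
  intro a b
  have := MM_neg (hx a b)
  rwa [← neg_mul, ← neg_mul] at this

lemma DS.sub {k : ℕ} {x y : LL} (hx : DS k x) (hy : DS k y) : DS k (x - y) := by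
  rw [sub_eq_add_neg]; exact hx.add hy.neg

lemma DS.mulO {k : ℕ} {x y : LL} (hx : DS k x) (hy : OO y) : DS k (x * y) := by
  intro a b
  have := MM_mul (hx a b) hy
  have e : x * ((mono k)⁻¹) ^ a * ((mono (k + 1))⁻¹) ^ b * y =
    x * y * ((mono k)⁻¹) ^ a * ((mono (k + 1))⁻¹) ^ b := by ring
  rwa [e] at this

lemma DS.mulO' {k : ℕ} {x y : LL} (hx : OO x) (hy : DS k y) : DS k (x * y) := by
  rw [mul_comm]; exact hy.mulO hx

lemma DS.mulInv {k : ℕ} {x : LL} (hx : DS k x) : DS k (x * (mono (k + 1))⁻¹) := by
  intro a b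
  have := hx a (b + 1)
  have e : x * ((mono k)⁻¹) ^ a * ((mono (k + 1))⁻¹) ^ (b + 1) =
    x * (mono (k + 1))⁻¹ * ((mono k)⁻¹) ^ a * ((mono (k + 1))⁻¹) ^ b := by ring
  rwa [e] at this

lemma DS.mulInv' {k : ℕ} {x : LL} (hx : DS k x) : DS k (x * (mono k)⁻¹) := by
  intro a b
  have := hx (a + 1) b
  have e : x * ((mono k)⁻¹) ^ (a + 1) * ((mono (k + 1))⁻¹) ^ b =
    x * (mono k)⁻¹ * ((mono k)⁻¹) ^ a * ((mono (k + 1))⁻¹) ^ b := by ring
  rwa [e] at this

lemma DS_zero (k : ℕ) : DS k 0 := by intro a b; simpa using MM_zero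

lemma DS_sum {k : ℕ} {ι : Type*} (s : Finset ι) (f : ι → LL) (h : ∀ i ∈ s, DS k (f i)) :
    DS k (∑ i ∈ s, f i) := by
  classical
  induction s using Finset.induction_on with
  | empty => simpa using DS_zero k
  | insert a s ha ih =>
    rw [Finset.sum_insert ha]
    exact (h a (Finset.mem_insert_self a s)).add
      (ih fun i hi => h i (Finset.mem_insert_of_mem hi))

/-- a monomial times a unit is not a square -/
lemma not_square {k : ℕ} {u : LL} {c : ℂ} (hc : c ≠ 0) (hu : Cl u c) (x : LL) :
    x ^ 2 ≠ mono k * u := by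
  intro h
  have h4 : vv (x ^ 2) = vv (mono k) := by
    rw [h, AddValuation.map_mul, hu.vv_eq hc, add_zero]
  have hx0 : x ≠ 0 := by
    rintro rfl
    rw [zero_pow (by norm_num), AddValuation.map_zero] at h4
    rw [vv_apply, mono, HahnSeries.orderTop_single one_ne_zero] at h4
    exact WithTop.top_ne_coe h4
  rw [pow_two, AddValuation.map_mul, vv_apply, vv_apply, mono,
    HahnSeries.orderTop_single one_ne_zero, ← HahnSeries.order_eq_orderTop_of_ne_zero hx0,
    ← WithTop.coe_add, WithTop.coe_inj] at h4
  have h5 := congrArg (fun g : Gm => (ofLex g) k) h4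
  simp only [ofLex_add, Pi.add_apply, ofLex_toLex, Pi.single_eq_same] at h5
  omega

/-- the coefficient of a monomial -/
lemma aeval_coeff (Q : MvPolynomial ℕ ℂ) (m : ℕ →₀ ℕ) :
    (MvPolynomial.aeval mono Q : LL).coeff (toLex fun j => (m j : ℤ)) = Q.coeff m := by
  induction Q using MvPolynomial.induction_on' with
  | monomial d a =>
    have h0 : (d.prod fun j k => (mono j) ^ k : LL) =
        HahnSeries.single (toLex fun j => (d j : ℤ)) (1 : ℂ) := by
      induction d using Finsupp.induction with
      | zero =>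
        simp only [Finsupp.prod_zero_index]
        rfl
      | single_add i k d hi hk ih =>
        rw [Finsupp.prod_add_index' (by intro; simp) (by intro i b c; rw [pow_add]),
          Finsupp.prod_single_index (by simp), ih, mono, single_pow', single_mul_single']
        simp only [one_pow, mul_one]
        congr 2
        funext j
        by_cases hij : j = i
        · subst hij; simp
        · simp [Finsupp.single_apply, Ne.symm hij, hij]
    have h1 : (MvPolynomial.aeval mono (MvPolynomial.monomial d a) : LL) =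
        HahnSeries.single (toLex fun j => (d j : ℤ)) a := by
      rw [MvPolynomial.aeval_monomial, h0]
      have : (algebraMap ℂ LL a) = HahnSeries.single (toLex (0 : ℕ → ℤ)) a := by
        rw [← K, K_eq]; rfl
      rw [this, single_mul_single', zero_add, mul_one]
    rw [h1, HahnSeries.coeff_single, MvPolynomial.coeff_monomial]
    have h2 : ((toLex fun j => (m j : ℤ)) = toLex fun j => (d j : ℤ)) ↔ d = m := by
      constructor
      · intro h
        have h3 := toLex.injective h
        ext i
        have h4 : ((m i : ℕ) : ℤ) = (d i : ℤ) := congrFun h3 i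
        omega
      · rintro rfl; rfl
    by_cases h : d = m
    · rw [if_pos h, if_pos (h2.mpr h)]
    · rw [if_neg h, if_neg (fun hh => h (h2.mp hh))]
  | add p q hp hq =>
    rw [map_add, HahnSeries.coeff_add, hp, hq, MvPolynomial.coeff_add]

lemma ind_mono : AlgebraicIndependent ℂ mono := by
  rw [algebraicIndependent_iff]
  intro Q hQ
  ext m
  rw [← aeval_coeff Q m, hQ]
  simp

section
variable {R A : Type*} [Field R] [Field A] [Algebra R A]

/-- x is algebraic over the algebra generated by S -/
def Alg (R : Type*) {A : Type*} [Field R] [Field A] [Algebra R A] (S : Set A) (x : A) : Prop :=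
  IsAlgebraic (Algebra.adjoin R S) x

lemma Alg.const (S : Set A) (z : R) : Alg R S (algebraMap R A z) :=
  isAlgebraic_algebraMap (R := Algebra.adjoin R S)
    (⟨algebraMap R A z, Subalgebra.algebraMap_mem _ z⟩ : Algebra.adjoin R S)

lemma Alg.mem {S : Set A} {x : A} (hx : x ∈ S) : Alg R S x :=
  isAlgebraic_algebraMap (R := Algebra.adjoin R S)
    (⟨x, Algebra.subset_adjoin hx⟩ : Algebra.adjoin R S)

lemma Alg.add {S : Set A} {x y : A} (hx : Alg R S x) (hy : Alg R S y) : Alg R S (x + y) :=
  IsAlgebraic.add hx hy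

lemma Alg.sub {S : Set A} {x y : A} (hx : Alg R S x) (hy : Alg R S y) : Alg R S (x - y) :=
  IsAlgebraic.sub hx hy

lemma Alg.neg {S : Set A} {x : A} (hx : Alg R S x) : Alg R S (-x) :=
  IsAlgebraic.neg hx

lemma Alg.mul {S : Set A} {x y : A} (hx : Alg R S x) (hy : Alg R S y) : Alg R S (x * y) :=
  IsAlgebraic.mul hx hy

lemma Alg.inv {S : Set A} {x : A} (hx : Alg R S x) : Alg R S x⁻¹ :=
  IsAlgebraic.inv hx

lemma Alg.div {S : Set A} {x y : A} (hx : Alg R S x) (hy : Alg R S y) : Alg R S (x / y) := by
  rw [div_eq_mul_inv]; exact hx.mul hy.inv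

lemma Alg.pow {S : Set A} {x : A} (hx : Alg R S x) (n : ℕ) : Alg R S (x ^ n) :=
  IsAlgebraic.pow hx n

lemma Alg.of_sq {S : Set A} {x : A} (hx : Alg R S (x ^ 2)) : Alg R S x :=
  IsAlgebraic.of_pow (by norm_num) hx

lemma Alg.two (S : Set A) : Alg R S (2 : A) := by
  have := Alg.const (R := R) S 2
  rwa [map_ofNat] at this

lemma Alg.sum {S : Set A} {ι : Type*} (s : Finset ι) (f : ι → A) (h : ∀ i ∈ s, Alg R S (f i)) :
    Alg R S (∑ i ∈ s, f i) := by
  classical
  induction s using Finset.induction_on with
  | empty =>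
    have := Alg.const (R := R) S 0
    simpa using this
  | insert a s ha ih =>
    rw [Finset.sum_insert ha]
    exact (h a (Finset.mem_insert_self a s)).add
      (ih fun i hi => h i (Finset.mem_insert_of_mem hi))

lemma Alg_iff_mem_closure {S : Set A} {x : A} :
    Alg R S x ↔ x ∈ (AlgebraicIndependent.matroid R A).closure S := by
  rw [AlgebraicIndependent.matroid_closure_eq]
  exact Iff.rfl

/-- exchange -/
theorem exchange {ι : Type*} [Finite ι] {η η' : ι → A} (h : AlgebraicIndependent R η)
    (h1 : ∀ i, Alg R (Set.range η') (η i)) : AlgebraicIndependent R η' := by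
  classical
  set M := AlgebraicIndependent.matroid R A with hM
  have hI : M.Indep (Set.range η) := by
    rw [hM, AlgebraicIndependent.matroid_indep_iff]
    exact h.to_subtype_range
  have hsub : Set.range η ⊆ M.closure (Set.range η') := by
    rintro _ ⟨i, rfl⟩
    exact Alg_iff_mem_closure.mp (h1 i)
  have hc : (Set.range η).encard = ENat.card ι := by
    rw [← Set.image_univ, h.injective.encard_image, Set.encard_univ]
  have hc' : (Set.range η').encard ≤ ENat.card ι := by
    rw [← Set.image_univ, ← Set.encard_univ]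
    exact Set.encard_image_le _ _
  have h3 : ENat.card ι ≤ M.eRk (Set.range η') := by
    rw [← Matroid.eRk_closure_eq, ← hc]
    exact hI.encard_le_eRk_of_subset hsub
  have h5 : M.eRk (Set.range η') ≤ (Set.range η').encard := M.eRk_le_encard _
  have h6 : M.eRk (Set.range η') = (Set.range η').encard := le_antisymm h5 (hc'.trans h3)
  have h7 : (Set.range η').encard = ENat.card ι := le_antisymm hc' (h3.trans h5)
  have hinj : Function.Injective η' := by
    have : Set.InjOn η' Set.univ := by
      refine Set.Finite.injOn_of_encard_image_eq Set.finite_univ ?_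
      rw [Set.image_univ, h7, Set.encard_univ]
    exact Set.injOn_univ.mp this
  have h8 : M.Indep (Set.range η') := by
    rw [Matroid.indep_iff_eRk_eq_encard_of_finite (Set.finite_range η')]
    exact h6
  rw [hM, AlgebraicIndependent.matroid_indep_iff] at h8
  exact AlgebraicIndependent.of_subtype_range hinj h8

end

end Inv38
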