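import Pool.Agent.Lib_helper86.Inv.Foot
import Pool.Agent.Lib_helper86.Inv.Mono

/-!
Growth of the directions of a reflected line in the Hahn field.
-/

set_option autoImplicit false

namespace Inv38

open Matrix
open Inv38.Ft (foot)

variable {n : ℕ}

lemma algebraMap_real (r : ℝ) : algebraMap ℝ LL r = K (r : ℂ) := by
  unfold K
  rw [IsScalarTower.algebraMap_apply ℝ ℂ LL]
  rfl

lemma Cl.mulc {x y : LL} {a b c : ℂ} (hx : Cl x a) (hy : Cl y b) (h : a * b = c) :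
    Cl (x * y) c := (hx.mul hy).congr h

lemma Cl.eq {x y : LL} {a : ℂ} (h : Cl x a) (hxy : x = y) : Cl y a := hxy ▸ h

/-- common description of a state relative to a centre: direction and foot are, up to scalars,
close to the isotropic vector v -/
structure Com (v : Fin n → ℂ) (σ : St n LL) (c : Fin n → ℝ) (κ μ P : LL) : Prop where
  hN : Cl (nn σ) 1
  hκ0 : κ ≠ 0
  hκ : MM κ⁻¹
  hμ0 : μ ≠ 0
  hw : ∀ i, Cl (σ.w i / κ) (v i)
  hz : ∀ i, Cl (foot c σ i / μ) (v i)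
  hP : foot c σ ⬝ᵥ foot c σ = P
  hP0 : P ≠ 0
  hrel : Cl (μ ^ 2 / (P * κ ^ 2)) (-1)

namespace Com

variable {v : Fin n → ℂ} {σ : St n LL} {c : Fin n → ℝ} {κ μ P : LL}

lemma N0 (h : Com v σ c κ μ P) : nn σ ≠ 0 := h.hN.ne one_ne_zero

/-- one reflection, with a given factor -/
lemma step_aux (h : Com v σ c κ μ P) {l : Lt n LL} (hl : l.c = c) (ok : Ok l σ) {φ : LL}
    (hφ0 : φ ≠ 0) {α β : ℂ} (hab : α - β = 1)
    (hα : Cl ((1 - 2 * l.s ^ 2 / (nn σ * (algebraMap ℝ LL l.r) ^ 2)) / φ) α)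
    (hβ : Cl (2 * l.s * μ / ((algebraMap ℝ LL l.r) ^ 2 * κ * φ)) β)
    (hκ' : MM (κ * φ)⁻¹) :
    Com v (step l σ) c (κ * φ) (μ * φ) P := by
  have hN0 := h.N0
  have hr := Ft.r_ne ok
  have hκ0 := h.hκ0
  have hμ0 := h.hμ0
  have hP0 := h.hP0
  subst hl
  refine ⟨?_, mul_ne_zero hκ0 hφ0, hκ', mul_ne_zero hμ0 hφ0, ?_, ?_, ?_, hP0, ?_⟩
  · rw [Ft.nn_step l hN0 ok]; exact h.hN
  · intro i
    have e : (step l σ).w i / (κ * φ) =
        ((1 - 2 * l.s ^ 2 / (nn σ * (algebraMap ℝ LL l.r) ^ 2)) / φ) * (σ.w i / κ) -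
        (2 * l.s * μ / ((algebraMap ℝ LL l.r) ^ 2 * κ * φ)) * (foot l.c σ i / μ) := by
      rw [Ft.w_step l]
      simp only [Pi.sub_apply, Pi.smul_apply, smul_eq_mul]
      field_simp
    rw [e]
    refine ((hα.mul (h.hw i)).sub (hβ.mul (h.hz i))).congr ?_
    rw [← sub_mul, hab, one_mul]
  · intro i
    -- the coefficient of the direction
    have hg : Cl (2 * l.s * P * κ / (nn σ * (algebraMap ℝ LL l.r) ^ 2 * μ * φ)) (-β) := by
      have e : 2 * l.s * P * κ / (nn σ * (algebraMap ℝ LL l.r) ^ 2 * μ * φ) =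
          (2 * l.s * μ / ((algebraMap ℝ LL l.r) ^ 2 * κ * φ)) *
            ((μ ^ 2 / (P * κ ^ 2))⁻¹ * (nn σ)⁻¹) := by
        field_simp
      rw [e]
      have h1 := h.hrel.inv (by norm_num)
      have h2 := h.hN.inv one_ne_zero
      refine (hβ.mul (h1.mul h2)).congr ?_
      norm_num
    have e : foot l.c (step l σ) i / (μ * φ) =
        ((1 - 2 * l.s ^ 2 / (nn σ * (algebraMap ℝ LL l.r) ^ 2)) / φ) * (foot l.c σ i / μ) +
        (2 * l.s * P * κ / (nn σ * (algebraMap ℝ LL l.r) ^ 2 * μ * φ)) * (σ.w i / κ) := by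
      rw [Ft.foot_step l hN0 ok, h.hP]
      simp only [Pi.add_apply, Pi.smul_apply, smul_eq_mul]
      field_simp
    rw [e]
    refine ((hα.mul (h.hz i)).add (hg.mul (h.hw i))).congr ?_
    rw [← add_mul, ← sub_eq_add_neg, hab, one_mul]
  · rw [Ft.footsq_step l hN0 ok]; exact h.hP
  · have e : μ ^ 2 / (P * κ ^ 2) = (μ * φ) ^ 2 / (P * (κ * φ) ^ 2) := by
      field_simp
    rw [← e]; exact h.hrel

lemma s_sq (h : Com v σ c κ μ P) {l : Lt n LL} (hl : l.c = c) (ok : Ok l σ) :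
    l.s ^ 2 = nn σ * ((algebraMap ℝ LL l.r) ^ 2 - P) := by
  rw [ok.2, Ft.gg_eq _ h.N0, hl, h.hP]; ring

/-- one reflection with growth -/
lemma big_step (h : Com v σ c κ μ P) (hP : MM P⁻¹) {l : Lt n LL} (hl : l.c = c)
    (ok : Ok l σ) (hs : Cl (l.s * μ / (P * κ)) (-1)) :
    Com v (step l σ) c (κ * (4 * P / (algebraMap ℝ LL l.r) ^ 2))
      (μ * (4 * P / (algebraMap ℝ LL l.r) ^ 2)) P := by
  have hN0 := h.N0
  have hr := Ft.r_ne ok
  have hκ0 := h.hκ0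
  have hμ0 := h.hμ0
  have hP0 := h.hP0
  have h4 : (4 : LL) ≠ 0 := by rw [← K_four]; exact K_ne (by norm_num)
  have hφ0 : 4 * P / (algebraMap ℝ LL l.r) ^ 2 ≠ 0 :=
    div_ne_zero (mul_ne_zero h4 hP0) (pow_ne_zero 2 hr)
  refine h.step_aux hl ok hφ0 (α := 1 / 2) (β := -(1 / 2)) (by norm_num) ?_ ?_ ?_
  · have e : (1 - 2 * l.s ^ 2 / (nn σ * (algebraMap ℝ LL l.r) ^ 2)) /
        (4 * P / (algebraMap ℝ LL l.r) ^ 2) =
        K (1 / 2) - K ((l.r : ℂ) ^ 2 / 4) * P⁻¹ := by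
      rw [h.s_sq hl ok, K_div, K_div, K_pow, K_one, K_two, K_four, ← algebraMap_real]
      have h2 : (2 : LL) ≠ 0 := by rw [← K_two]; exact K_ne (by norm_num)
      field_simp
      ring
    rw [e]
    refine ((Cl_const (1 / 2)).sub ((Cl_const _).mul hP.cl)).congr ?_
    ring
  · have e : 2 * l.s * μ / ((algebraMap ℝ LL l.r) ^ 2 * κ * (4 * P / (algebraMap ℝ LL l.r) ^ 2)) =
        K (1 / 2) * (l.s * μ / (P * κ)) := by
      rw [K_div, K_one, K_two]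
      have h2 : (2 : LL) ≠ 0 := by rw [← K_two]; exact K_ne (by norm_num)
      field_simp
      ring
    rw [e]
    refine ((Cl_const (1 / 2)).mul hs).congr (by ring)
  · have e : (κ * (4 * P / (algebraMap ℝ LL l.r) ^ 2))⁻¹ =
        κ⁻¹ * (P⁻¹ * K ((l.r : ℂ) ^ 2 / 4)) := by
      rw [K_div, K_pow, K_four, ← algebraMap_real]
      field_simp
    rw [e]
    exact MM_mul h.hκ (OO_mul hP.O (OO_const _))

/-- the factor of a reflection with growth is large -/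
lemma big_factor (hP : MM P⁻¹) {r : ℝ} (hr : 0 < r) (hP0 : P ≠ 0) :
    MM (4 * P / (algebraMap ℝ LL r) ^ 2)⁻¹ := by
  have e : (4 * P / (algebraMap ℝ LL r) ^ 2)⁻¹ = P⁻¹ * K ((r : ℂ) ^ 2 / 4) := by
    rw [K_div, K_pow, K_four, ← algebraMap_real]
    have : algebraMap ℝ LL r ≠ 0 := by
      rw [Ne, FaithfulSMul.algebraMap_eq_zero_iff]; exact hr.ne'
    field_simp
  rw [e]
  exact MM_mul hP (OO_const _)

/-- iterated reflections with growth -/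
lemma big_iter (h : Com v σ c κ μ P) (hP : MM P⁻¹) {l : Lt n LL} (hl : l.c = c)
    (ok : Ok l σ) (hs : Cl (l.s * μ / (P * κ)) (-1)) (e : ℕ) :
    Com v ((step l)^[e] σ) c (κ * (4 * P / (algebraMap ℝ LL l.r) ^ 2) ^ e)
      (μ * (4 * P / (algebraMap ℝ LL l.r) ^ 2) ^ e) P ∧ Ok l ((step l)^[e] σ) := by
  induction e with
  | zero => simpa using ⟨h, ok⟩
  | succ e ih =>
    obtain ⟨h1, h2⟩ := ih
    have hr := Ft.r_ne ok
    have hP0 := h.hP0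
    have h4 : (4 : LL) ≠ 0 := by rw [← K_four]; exact K_ne (by norm_num)
    have hφ0 : 4 * P / (algebraMap ℝ LL l.r) ^ 2 ≠ 0 :=
      div_ne_zero (mul_ne_zero h4 hP0) (pow_ne_zero 2 hr)
    have hs' : Cl (l.s * (μ * (4 * P / (algebraMap ℝ LL l.r) ^ 2) ^ e) /
        (P * (κ * (4 * P / (algebraMap ℝ LL l.r) ^ 2) ^ e))) (-1) := by
      refine hs.eq ?_
      have hκ0 := h.hκ0
      have := pow_ne_zero e hφ0
      rw [← mul_assoc, ← mul_assoc, mul_div_mul_right _ _ this]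
    rw [Function.iterate_succ_apply', pow_succ, ← mul_assoc, ← mul_assoc]
    exact ⟨h1.big_step hP hl h2 hs', Ft.ok_step l h1.N0 h2⟩

/-- a square root with growth -/
lemma big_sqrt (h : Com v σ c κ μ P) (hP : MM P⁻¹) (r : ℝ) :
    ∃ S : LL, S ≠ 0 ∧ S ^ 2 = (algebraMap ℝ LL r) ^ 2 * nn σ - gg c σ ∧
      Cl (S * μ / (P * κ)) (-1) := by
  have hN0 := h.N0
  have hκ0 := h.hκ0
  have hμ0 := h.hμ0
  have hP0 := h.hP0
  have hx : Cl (-(nn σ * (1 - K ((r : ℂ) ^ 2) * P⁻¹) * (μ ^ 2 / (P * κ ^ 2)))) 1 := by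
    have h1 : Cl (1 - K ((r : ℂ) ^ 2) * P⁻¹) 1 := by
      have := (Cl_const 1).sub ((Cl_const ((r : ℂ) ^ 2)).mul hP.cl)
      rw [K_one] at this
      exact this.congr (by ring)
    exact (((h.hN.mul h1).mul h.hrel).neg).congr (by norm_num)
  obtain ⟨y, hy, hy1⟩ := hx.sqrt
  have hy0 : y ≠ 0 := hy1.ne one_ne_zero
  refine ⟨-(P * κ * y / μ), neg_ne_zero.mpr (div_ne_zero (mul_ne_zero (mul_ne_zero hP0 hκ0) hy0)
    hμ0), ?_, ?_⟩
  · rw [Ft.gg_eq _ hN0, h.hP]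
    have : (-(P * κ * y / μ)) ^ 2 = P ^ 2 * κ ^ 2 * y ^ 2 / μ ^ 2 := by ring
    rw [this, hy, K_pow, ← algebraMap_real]
    field_simp
    ring
  · have : -(P * κ * y / μ) * μ / (P * κ) = -y := by field_simp
    rw [this]; exact hy1.neg

/-- a square root without growth -/
lemma small_sqrt (h : Com v σ c κ μ P) {ra : ℝ} (hra : 0 < ra) (hP : Cl P ((ra : ℂ) ^ 2))
    (r : ℝ) (hr : 0 < r) (hne : r ≠ ra) :
    ∃ S : LL, ∃ s0 : ℂ, S ≠ 0 ∧ S ^ 2 = (algebraMap ℝ LL r) ^ 2 * nn σ - gg c σ ∧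
      s0 ^ 2 = (r : ℂ) ^ 2 - (ra : ℂ) ^ 2 ∧ Cl S s0 := by
  have hN0 := h.N0
  set d : ℂ := (r : ℂ) ^ 2 - (ra : ℂ) ^ 2 with hd
  have hd0 : d ≠ 0 := by
    rw [hd, ← Complex.ofReal_pow, ← Complex.ofReal_pow, ← Complex.ofReal_sub]
    have : r ^ 2 - ra ^ 2 ≠ 0 := by
      have e : r ^ 2 - ra ^ 2 = (r - ra) * (r + ra) := by ring
      rw [e]
      exact mul_ne_zero (sub_ne_zero.mpr hne) (by positivity)
    exact_mod_cast this
  obtain ⟨k, hk⟩ : ∃ k : ℂ, k ^ 2 = d := ⟨d ^ ((1 : ℂ) / 2), by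
    rw [← Complex.cpow_nat_mul]; norm_num⟩
  have hk0 : k ≠ 0 := by rintro rfl; apply hd0; rw [← hk]; norm_num
  have hx : Cl (nn σ * (K ((r : ℂ) ^ 2) - P) * K d⁻¹) 1 := by
    refine ((h.hN.mul ((Cl_const ((r : ℂ) ^ 2)).sub hP)).mul (Cl_const d⁻¹)).congr ?_
    rw [← hd]; field_simp
  obtain ⟨y, hy, hy1⟩ := hx.sqrt
  have hy0 : y ≠ 0 := hy1.ne one_ne_zero
  refine ⟨K k * y, k, mul_ne_zero (K_ne hk0) hy0, ?_, hk, ?_⟩
  · rw [Ft.gg_eq _ hN0, h.hP, mul_pow, hy, ← K_pow, hk, K_inv, K_pow, ← algebraMap_real]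
    have := K_ne hd0
    field_simp
  · exact ((Cl_const k).mul hy1).congr (mul_one k)

/-- one reflection without growth -/
lemma small_step (h : Com v σ c κ μ P) {ra : ℝ} (hP : Cl P ((ra : ℂ) ^ 2))
    (hρ : Cl (μ / κ) (Complex.I * ra)) {l : Lt n LL} (hl : l.c = c) (ok : Ok l σ) {s0 : ℂ}
    (hs0 : s0 ^ 2 = (l.r : ℂ) ^ 2 - (ra : ℂ) ^ 2) (hs : Cl l.s s0) :
    Com v (step l σ) c (κ * K (-(s0 + Complex.I * ra) ^ 2 / (l.r : ℂ) ^ 2))
      (μ * K (-(s0 + Complex.I * ra) ^ 2 / (l.r : ℂ) ^ 2)) P := by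
  have hN0 := h.N0
  have hr := Ft.r_ne ok
  have hκ0 := h.hκ0
  have hμ0 := h.hμ0
  have hP0 := h.hP0
  have hrc : (l.r : ℂ) ≠ 0 := by exact_mod_cast ok.1.ne'
  have hI : Complex.I ^ 2 = -1 := Complex.I_sq
  have hfac : (s0 + Complex.I * ra) * (s0 - Complex.I * ra) = (l.r : ℂ) ^ 2 := by
    have : (s0 + Complex.I * ra) * (s0 - Complex.I * ra) =
      s0 ^ 2 - Complex.I ^ 2 * (ra : ℂ) ^ 2 := by ring
    rw [this, hI, hs0]; ring
  have hne0 : s0 + Complex.I * ra ≠ 0 := by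
    intro h0; rw [h0, zero_mul] at hfac
    exact (pow_ne_zero 2 hrc) hfac.symm
  set φ : ℂ := -(s0 + Complex.I * ra) ^ 2 / (l.r : ℂ) ^ 2 with hφ
  have hφ0 : φ ≠ 0 := div_ne_zero (neg_ne_zero.mpr (pow_ne_zero 2 hne0)) (pow_ne_zero 2 hrc)
  have hval : φ = (-1 + 2 * (ra : ℂ) ^ 2 / (l.r : ℂ) ^ 2) -
      2 * s0 * (Complex.I * ra) / (l.r : ℂ) ^ 2 := by
    rw [hφ]
    have : (s0 + Complex.I * ra) ^ 2 = s0 ^ 2 + 2 * s0 * (Complex.I * ra) +
        Complex.I ^ 2 * (ra : ℂ) ^ 2 := by ring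
    rw [this, hs0, hI]
    field_simp
    ring
  clear_value φ
  refine h.step_aux hl ok (K_ne hφ0) (α := (-1 + 2 * (ra : ℂ) ^ 2 / (l.r : ℂ) ^ 2) / φ)
    (β := (2 * s0 * (Complex.I * ra) / (l.r : ℂ) ^ 2) / φ) ?_ ?_ ?_ ?_
  · rw [← sub_div, ← hval, div_self hφ0]
  · have e : (1 - 2 * l.s ^ 2 / (nn σ * (algebraMap ℝ LL l.r) ^ 2)) =
        K (-1) + K (2 / (l.r : ℂ) ^ 2) * P := by
      rw [h.s_sq hl ok, K_neg, K_one, K_div, K_two, K_pow, ← algebraMap_real]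
      field_simp
      ring
    rw [e]
    refine (((Cl_const (-1)).add ((Cl_const _).mul hP)).div (Cl_const φ) hφ0).congr ?_
    ring
  · have e : 2 * l.s * μ / ((algebraMap ℝ LL l.r) ^ 2 * κ * K φ) =
        K (2 / (l.r : ℂ) ^ 2) * l.s * (μ / κ) / K φ := by
      rw [K_div, K_two, K_pow, ← algebraMap_real]
      have := K_ne hφ0
      field_simp
    rw [e]
    refine ((((Cl_const _).mul hs).mul hρ).div (Cl_const φ) hφ0).congr ?_
    ring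
  · rw [mul_inv, ← K_inv]
    exact MM_mul h.hκ (OO_const _)

/-- iterated reflections without growth -/
lemma small_iter (h : Com v σ c κ μ P) {ra : ℝ} (hP : Cl P ((ra : ℂ) ^ 2))
    (hρ : Cl (μ / κ) (Complex.I * ra)) {l : Lt n LL} (hl : l.c = c) (ok : Ok l σ) {s0 : ℂ}
    (hs0 : s0 ^ 2 = (l.r : ℂ) ^ 2 - (ra : ℂ) ^ 2) (hs : Cl l.s s0) (e : ℕ) :
    ∃ κ' μ' : LL, Com v ((step l)^[e] σ) c κ' μ' P ∧ Ok l ((step l)^[e] σ) ∧
      Cl (μ' / κ') (Complex.I * ra) := by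
  induction e with
  | zero => exact ⟨κ, μ, h, ok, hρ⟩
  | succ e ih =>
    obtain ⟨κ', μ', h1, h2, h3⟩ := ih
    have hrc : (l.r : ℂ) ≠ 0 := by exact_mod_cast ok.1.ne'
    have hst := h1.small_step hP h3 hl h2 hs0 hs
    refine ⟨_, _, by rw [Function.iterate_succ_apply']; exact hst, ?_, ?_⟩
    · rw [Function.iterate_succ_apply']; exact Ft.ok_step l h1.N0 h2
    · refine h3.eq ?_
      have hne : K (-(s0 + Complex.I * ra) ^ 2 / (l.r : ℂ) ^ 2) ≠ 0 := by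
        intro h0
        exact hst.hκ0 (by rw [h0, mul_zero])
      rw [mul_div_mul_right _ _ hne]

/-- change of centre -/
lemma shift (h : Com v σ c κ μ P) (hPκ : MM (P / κ ^ 2)) (c' : Fin n → ℝ) {b : ℂ} (hb : b ≠ 0)
    (hbv : ∑ i, ((c i - c' i : ℝ) : ℂ) * v i = b) :
    ∃ P', Com v σ c' κ (-(K b * κ ^ 2)) P' ∧ MM P'⁻¹ ∧ OO (P' / κ ^ 2) := by
  have hN0 := h.N0
  have hκ0 := h.hκ0
  have hμ0 := h.hμ0
  have hP0 := h.hP0
  have hN1 := h.hN.inv one_ne_zero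
  set d : Fin n → LL := cc (fun i => c i - c' i) with hd
  have hdi : ∀ i, d i = K ((c i - c' i : ℝ) : ℂ) := fun i => algebraMap_real _
  -- the direction along d
  have hdw : Cl ((d ⬝ᵥ σ.w) / κ) b := by
    have e : (d ⬝ᵥ σ.w) / κ = ∑ i, d i * (σ.w i / κ) := by
      unfold dotProduct
      rw [Finset.sum_div]
      exact Finset.sum_congr rfl fun i _ => by rw [mul_div_assoc]
    rw [e]
    refine (Cl.sum Finset.univ _ (fun i => ((c i - c' i : ℝ) : ℂ) * v i) ?_).congr hbv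
    intro i _
    rw [hdi i]
    exact (Cl_const _).mul (h.hw i)
  -- mu is small with respect to kappa squared
  have hμκ : MM (μ / κ ^ 2) := by
    apply MM_of_sq
    have e : (μ / κ ^ 2) ^ 2 = (μ ^ 2 / (P * κ ^ 2)) * (P / κ ^ 2) := by
      field_simp
    rw [e]
    exact MM_mul' h.hrel.O hPκ
  have hκ2 : MM (κ ^ 2)⁻¹ := by
    rw [← inv_pow]; exact MM_pow h.hκ (by norm_num)
  have hzκ : ∀ i, MM (foot c σ i / κ ^ 2) := by
    intro i
    have e : foot c σ i / κ ^ 2 = (μ / κ ^ 2) * (foot c σ i / μ) := by field_simp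
    rw [e]
    exact MM_mul hμκ (h.hz i).O
  have hKb : K b ≠ 0 := K_ne hb
  set P' := foot c' σ ⬝ᵥ foot c' σ with hP'
  have hP'κ : Cl (P' / κ ^ 2) (-(b ^ 2)) := by
    have e : P' / κ ^ 2 = P / κ ^ 2 + K 2 * ∑ i, (foot c σ i / κ ^ 2) * d i +
        (d ⬝ᵥ d) * (κ ^ 2)⁻¹ - ((d ⬝ᵥ σ.w) / κ) ^ 2 * (nn σ)⁻¹ := by
      have e1 : ∑ i, (foot c σ i / κ ^ 2) * d i = (foot c σ ⬝ᵥ d) / κ ^ 2 := by
        unfold dotProduct
        rw [Finset.sum_div]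
        exact Finset.sum_congr rfl fun i _ => by ring
      rw [hP', Ft.footsq_change c c' hN0, h.hP, ← hd, e1, K_two]
      field_simp
    rw [e]
    have h1 : Cl (K 2 * ∑ i, (foot c σ i / κ ^ 2) * d i) 0 := by
      refine MM.cl (MM_mul' (OO_const _) (MM_sum _ _ fun i _ => ?_))
      rw [hdi i]
      exact MM_mul (hzκ i) (OO_const _)
    have h2 : Cl ((d ⬝ᵥ d) * (κ ^ 2)⁻¹) 0 := by
      refine MM.cl (MM_mul' ?_ hκ2)
      unfold dotProduct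
      refine OO_sum _ _ fun i _ => ?_
      rw [hdi i]
      exact OO_mul (OO_const _) (OO_const _)
    refine (((hPκ.cl.add h1).add h2).sub ((hdw.pow 2).mul hN1)).congr ?_
    norm_num
  have hb2 : -(b ^ 2) ≠ 0 := neg_ne_zero.mpr (pow_ne_zero 2 hb)
  have hP'0 : P' ≠ 0 := by
    have := hP'κ.ne hb2
    intro h0; rw [h0, zero_div] at this; exact this rfl
  refine ⟨P', ⟨h.hN, hκ0, h.hκ, neg_ne_zero.mpr (mul_ne_zero hKb (pow_ne_zero 2 hκ0)), h.hw, ?_,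
    rfl, hP'0, ?_⟩, ?_, hP'κ.O⟩
  · intro i
    have e : foot c' σ i / (-(K b * κ ^ 2)) =
        -((foot c σ i / κ ^ 2) * K b⁻¹) - (d i * (κ ^ 2)⁻¹) * K b⁻¹ +
        (((d ⬝ᵥ σ.w) / κ) * (nn σ)⁻¹ * (σ.w i / κ)) * K b⁻¹ := by
      rw [Ft.foot_change c c' hN0, ← hd, K_inv]
      simp only [Pi.sub_apply, Pi.add_apply, Pi.smul_apply, smul_eq_mul]
      field_simp
      ring
    rw [e]
    have h1 : Cl (-((foot c σ i / κ ^ 2) * K b⁻¹)) 0 :=
      MM.cl (MM_neg (MM_mul (hzκ i) (OO_const _)))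
    have h2 : Cl ((d i * (κ ^ 2)⁻¹) * K b⁻¹) 0 := by
      refine MM.cl (MM_mul (MM_mul' ?_ hκ2) (OO_const _))
      rw [hdi i]; exact OO_const _
    refine ((h1.sub h2).add (((hdw.mul hN1).mul (h.hw i)).mul (Cl_const b⁻¹))).congr ?_
    field_simp
    ring
  · have e : (-(K b * κ ^ 2)) ^ 2 / (P' * κ ^ 2) = K (b ^ 2) * (P' / κ ^ 2)⁻¹ := by
      rw [K_pow]; field_simp
    rw [e]
    refine ((Cl_const (b ^ 2)).mul (hP'κ.inv hb2)).congr ?_
    field_simp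
  · have e : P'⁻¹ = (κ ^ 2)⁻¹ * (P' / κ ^ 2)⁻¹ := by field_simp
    rw [e]
    exact MM_mul hκ2 (hP'κ.inv hb2).O

end Com

end Inv38
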