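import Mathlib

/-!
The field of Hahn series with complex coefficients and exponents in the lexicographic group of
integer sequences: square roots, the valuation ring, monomials.
-/

set_option autoImplicit false

namespace Inv38

open HahnSeries

/-- exponents: sequences of integers, lexicographically ordered -/
abbrev Gm : Type := Lex (ℕ → ℤ)

/-- the field of Hahn series with complex coefficients -/
abbrev LL : Type := HahnSeries Gm ℂ

noncomputable instance : Field LL := inferInstance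

/-- complex constants -/
noncomputable def K (c : ℂ) : LL := algebraMap ℂ LL c

lemma K_add (a b : ℂ) : K (a + b) = K a + K b := map_add _ _ _
lemma K_sub (a b : ℂ) : K (a - b) = K a - K b := map_sub _ _ _
lemma K_mul (a b : ℂ) : K (a * b) = K a * K b := map_mul _ _ _
lemma K_neg (a : ℂ) : K (-a) = -K a := map_neg _ _
lemma K_inv (a : ℂ) : K a⁻¹ = (K a)⁻¹ := map_inv₀ _ _
lemma K_div (a b : ℂ) : K (a / b) = K a / K b := map_div₀ _ _ _
lemma K_pow (a : ℂ) (k : ℕ) : K (a ^ k) = K a ^ k := map_pow _ _ _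
@[simp] lemma K_zero : K 0 = 0 := map_zero _
@[simp] lemma K_one : K 1 = 1 := map_one _
lemma K_two : K 2 = 2 := map_ofNat _ 2
lemma K_four : K 4 = 4 := map_ofNat _ 4
lemma K_ne {c : ℂ} (hc : c ≠ 0) : K c ≠ 0 := by
  unfold K; rwa [Ne, FaithfulSMul.algebraMap_eq_zero_iff]

/-- the valuation -/
noncomputable def vv : AddValuation LL (WithTop Gm) := addVal Gm ℂ

lemma vv_apply (x : LL) : vv x = x.orderTop := addVal_apply

lemma exists_sqrt (x : LL) (hx : 0 < vv (x - 1)) : ∃ y : LL, y * y = x ∧ 0 < vv (y - 1) := by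
  rw [vv_apply] at hx
  refine ⟨PowerSeries.heval (x - 1) (PowerSeries.binomialSeries ℂ (1 / 2 : ℂ)), ?_, ?_⟩
  · rw [← map_mul, ← PowerSeries.binomialSeries_add]
    have h1 : (1 / 2 : ℂ) + 1 / 2 = ((1 : ℕ) : ℂ) := by norm_num
    rw [h1, PowerSeries.binomialSeries_nat, pow_one, map_add, map_one, PowerSeries.heval_X _ hx]
    ring
  · rw [vv_apply]
    exact SummableFamily.orderTop_hsum_binomialFamily_pos hx (1 / 2 : ℂ)

/-- the valuation ring -/
def OO (x : LL) : Prop := 0 ≤ vv x

/-- the maximal ideal -/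
def MM (x : LL) : Prop := 0 < vv x

lemma MM.O {x : LL} (h : MM x) : OO x := le_of_lt h

lemma K_eq (c : ℂ) : K c = HahnSeries.single (0 : Gm) c := by
  unfold K; rw [HahnSeries.algebraMap_apply]; rfl

lemma OO_const (c : ℂ) : OO (K c) := by
  unfold OO
  rw [vv_apply]
  by_cases hc : c = 0
  · simp [hc]
  · rw [K_eq, HahnSeries.orderTop_single hc]
    exact le_refl _

lemma OO_one : OO (1 : LL) := by simpa using OO_const 1
lemma OO_zero : OO (0 : LL) := by simpa using OO_const 0
lemma MM_zero : MM (0 : LL) := by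
  unfold MM; rw [AddValuation.map_zero]; exact WithTop.coe_lt_top 0

lemma OO_add {x y : LL} (hx : OO x) (hy : OO y) : OO (x + y) := vv.map_le_add hx hy

lemma OO_neg {x : LL} (hx : OO x) : OO (-x) := by
  unfold OO; rw [AddValuation.map_neg]; exact hx

lemma MM_add {x y : LL} (hx : MM x) (hy : MM y) : MM (x + y) := vv.map_lt_add hx hy

lemma MM_neg {x : LL} (hx : MM x) : MM (-x) := by
  unfold MM; rw [AddValuation.map_neg]; exact hx

lemma MM_sub {x y : LL} (hx : MM x) (hy : MM y) : MM (x - y) := by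
  rw [sub_eq_add_neg]; exact MM_add hx (MM_neg hy)

lemma OO_sub {x y : LL} (hx : OO x) (hy : OO y) : OO (x - y) := by
  rw [sub_eq_add_neg]; exact OO_add hx (OO_neg hy)

lemma OO_mul {x y : LL} (hx : OO x) (hy : OO y) : OO (x * y) := by
  unfold OO; rw [AddValuation.map_mul]; exact add_nonneg hx hy

lemma MM_mul {x y : LL} (hx : MM x) (hy : OO y) : MM (x * y) := by
  unfold MM; rw [AddValuation.map_mul]; exact add_pos_of_pos_of_nonneg hx hy

lemma MM_mul' {x y : LL} (hx : OO x) (hy : MM y) : MM (x * y) := by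
  rw [mul_comm]; exact MM_mul hy hx

lemma OO_pow {x : LL} (hx : OO x) (n : ℕ) : OO (x ^ n) := by
  induction n with
  | zero => simpa using OO_one
  | succ n ih => rw [pow_succ]; exact OO_mul ih hx

lemma MM_pow {x : LL} (hx : MM x) {n : ℕ} (hn : 1 ≤ n) : MM (x ^ n) := by
  obtain ⟨m, rfl⟩ := Nat.exists_eq_add_of_le hn
  rw [_root_.pow_add, pow_one]
  exact MM_mul hx (OO_pow hx.O m)

lemma OO_sum {ι : Type*} (s : Finset ι) (f : ι → LL) (h : ∀ i ∈ s, OO (f i)) :
    OO (∑ i ∈ s, f i) := by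
  classical
  induction s using Finset.induction_on with
  | empty => simpa using OO_zero
  | insert a s ha ih =>
    rw [Finset.sum_insert ha]
    exact OO_add (h a (Finset.mem_insert_self a s))
      (ih fun i hi => h i (Finset.mem_insert_of_mem hi))

lemma MM_sum {ι : Type*} (s : Finset ι) (f : ι → LL) (h : ∀ i ∈ s, MM (f i)) :
    MM (∑ i ∈ s, f i) := by
  classical
  induction s using Finset.induction_on with
  | empty => simpa using MM_zero
  | insert a s ha ih =>
    rw [Finset.sum_insert ha]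
    exact MM_add (h a (Finset.mem_insert_self a s))
      (ih fun i hi => h i (Finset.mem_insert_of_mem hi))

lemma not_MM_const {c : ℂ} (hc : c ≠ 0) : ¬ MM (K c) := by
  unfold MM
  rw [vv_apply, K_eq, HahnSeries.orderTop_single hc]
  exact lt_irrefl _

/-- the square root of a small element is small -/
lemma MM_of_sq {x : LL} (h : MM (x ^ 2)) : MM x := by
  by_contra hx
  have hx' : vv x ≤ 0 := not_lt.mp hx
  have : vv (x ^ 2) ≤ 0 := by
    rw [pow_two, AddValuation.map_mul]
    calc vv x + vv x ≤ 0 + 0 := add_le_add hx' hx'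
      _ = 0 := add_zero 0
  exact absurd h (not_lt.mpr this)

/-- x is close to the constant c -/
def Cl (x : LL) (c : ℂ) : Prop := MM (x - K c)

lemma Cl_const (c : ℂ) : Cl (K c) c := by unfold Cl; rw [sub_self]; exact MM_zero

lemma Cl.O {x : LL} {c : ℂ} (h : Cl x c) : OO x := by
  have := OO_add (MM.O h) (OO_const c)
  simpa using this

lemma Cl.add {x y : LL} {a b : ℂ} (hx : Cl x a) (hy : Cl y b) : Cl (x + y) (a + b) := by
  unfold Cl at *
  rw [K_add]
  have : x + y - (K a + K b) = (x - K a) + (y - K b) := by ring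
  rw [this]; exact MM_add hx hy

lemma Cl.neg {x : LL} {a : ℂ} (hx : Cl x a) : Cl (-x) (-a) := by
  unfold Cl at *
  rw [K_neg]
  have : -x - -K a = -(x - K a) := by ring
  rw [this]; exact MM_neg hx

lemma Cl.sub {x y : LL} {a b : ℂ} (hx : Cl x a) (hy : Cl y b) : Cl (x - y) (a - b) := by
  rw [sub_eq_add_neg, sub_eq_add_neg]; exact hx.add hy.neg

lemma Cl.mul {x y : LL} {a b : ℂ} (hx : Cl x a) (hy : Cl y b) : Cl (x * y) (a * b) := by
  have hxO := hx.O
  unfold Cl at *
  rw [K_mul]
  have : x * y - K a * K b = x * (y - K b) + (x - K a) * K b := by ring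
  rw [this]; exact MM_add (MM_mul' hxO hy) (MM_mul hx (OO_const b))

lemma Cl.pow {x : LL} {a : ℂ} (hx : Cl x a) (k : ℕ) : Cl (x ^ k) (a ^ k) := by
  induction k with
  | zero => simpa using Cl_const 1
  | succ k ih => rw [pow_succ, pow_succ]; exact ih.mul hx

lemma Cl_zero_iff {x : LL} : Cl x 0 ↔ MM x := by unfold Cl; simp

lemma MM.cl {x : LL} (h : MM x) : Cl x 0 := Cl_zero_iff.mpr h

lemma Cl.sum {ι : Type*} (s : Finset ι) (f : ι → LL) (g : ι → ℂ) (h : ∀ i ∈ s, Cl (f i) (g i)) :
    Cl (∑ i ∈ s, f i) (∑ i ∈ s, g i) := by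
  classical
  induction s using Finset.induction_on with
  | empty => simpa using Cl_const 0
  | insert a s ha ih =>
    rw [Finset.sum_insert ha, Finset.sum_insert ha]
    exact (h a (Finset.mem_insert_self a s)).add (ih fun i hi => h i (Finset.mem_insert_of_mem hi))

lemma Cl.ne {x : LL} {c : ℂ} (h : Cl x c) (hc : c ≠ 0) : x ≠ 0 := by
  rintro rfl
  have := MM_neg h
  rw [neg_sub, sub_zero] at this
  exact not_MM_const hc this

lemma Cl.vv_eq {x : LL} {c : ℂ} (h : Cl x c) (hc : c ≠ 0) : vv x = 0 := by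
  refine le_antisymm ?_ h.O
  by_contra hlt
  have hlt' : MM x := lt_of_not_ge hlt
  have := MM_add hlt' (MM_neg h)
  rw [neg_sub, add_sub_cancel] at this
  exact not_MM_const hc this

lemma vv_inv_of_zero {x : LL} (h0 : x ≠ 0) (h : vv x = 0) : vv x⁻¹ = 0 := by
  have h3 : vv x + vv x⁻¹ = 0 := by
    rw [← AddValuation.map_mul, mul_inv_cancel₀ h0]
    exact AddValuation.map_one _
  rwa [h, zero_add] at h3

lemma Cl.inv {x : LL} {c : ℂ} (h : Cl x c) (hc : c ≠ 0) : Cl x⁻¹ c⁻¹ := by
  have h0 := h.ne hc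
  have hi : OO x⁻¹ := (vv_inv_of_zero h0 (h.vv_eq hc)).ge
  unfold Cl at *
  have hK : K c ≠ 0 := K_ne hc
  have : x⁻¹ - K c⁻¹ = -((x - K c) * (x⁻¹ * K c⁻¹)) := by
    rw [K_inv]; field_simp; ring
  rw [this]
  exact MM_neg (MM_mul h (OO_mul hi (OO_const _)))

lemma Cl.div {x y : LL} {a b : ℂ} (hx : Cl x a) (hy : Cl y b) (hb : b ≠ 0) :
    Cl (x / y) (a / b) := by
  rw [div_eq_mul_inv, div_eq_mul_inv]; exact hx.mul (hy.inv hb)

lemma Cl.congr {x : LL} {a b : ℂ} (h : Cl x a) (hab : a = b) : Cl x b := hab ▸ h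

/-- a square root of an element close to 1 -/
lemma Cl.sqrt {x : LL} (h : Cl x 1) : ∃ y : LL, y ^ 2 = x ∧ Cl y 1 := by
  have hx : 0 < vv (x - 1) := by
    have := h; unfold Cl MM at this; simpa using this
  obtain ⟨y, hy, hy'⟩ := exists_sqrt x hx
  exact ⟨y, by rw [pow_two]; exact hy, by unfold Cl MM; simpa using hy'⟩

/-- if x^2 is close to 1 then x is close to 1 or to -1 -/
lemma Cl.of_sq {x : LL} (h : Cl (x ^ 2) 1) : Cl x 1 ∨ Cl x (-1) := by
  obtain ⟨y, hy, hy'⟩ := h.sqrt
  have : (y - x) * (y + x) = 0 := by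
    have : (y - x) * (y + x) = y ^ 2 - x ^ 2 := by ring
    rw [this, hy, sub_self]
  rcases mul_eq_zero.mp this with h1 | h1
  · left; rw [← sub_eq_zero.mp h1]; exact hy'
  · right
    have : x = -y := by linear_combination h1
    rw [this]; exact hy'.neg

/-- the monomials -/
noncomputable def mono (j : ℕ) : LL := HahnSeries.single (toLex (Pi.single j (1 : ℤ))) (1 : ℂ)

lemma mono_ne (j : ℕ) : mono j ≠ 0 := by
  unfold mono
  exact HahnSeries.single_ne_zero one_ne_zero

lemma mono_inv (j : ℕ) :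
    (mono j)⁻¹ = HahnSeries.single (toLex (-Pi.single j (1 : ℤ))) (1 : ℂ) := by
  refine inv_eq_of_mul_eq_one_left ?_
  unfold mono
  rw [HahnSeries.single_mul_single, ← toLex_add, neg_add_cancel, mul_one]
  rfl

end Inv38
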