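import Pool.Agent.Lib_helper86.Inv.Init
import Mathlib

/-!
The coordinates of the special states are algebraically independent.
-/

set_option autoImplicit false

namespace Inv38

open Matrix

variable {n : ℕ}

/-- the coordinates of the special state are algebraically independent -/
theorem spec_ind (v u : Fin n → ℂ) (c : Fin n → ℝ) (R : LL)
    (hR : Alg ℂ {mono (2 * n), mono (2 * n + 1)} R) :
    AlgebraicIndependent ℝ (Sum.elim
      (spec (2 * n) v u c R (fun i => mono i) (fun i => mono (n + i))).x
      (spec (2 * n) v u c R (fun i => mono i) (fun i => mono (n + i))).w) := by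
  set σ := spec (2 * n) v u c R (fun i => mono i) (fun i => mono (n + i)) with hσ
  -- the indices
  let f : (Fin n ⊕ Fin n) ⊕ Fin 2 → ℕ :=
    Sum.elim (Sum.elim (fun i => (i : ℕ)) (fun i => n + i)) (fun j => 2 * n + j)
  have hf : Function.Injective f := by
    intro a b hab
    rcases a with (a | a) | a <;> rcases b with (b | b) | b <;>
      simp only [f, Sum.elim_inl, Sum.elim_inr] at hab <;>
      first
      | (exfalso; have := a.isLt; have := b.isLt; omega)
      | (have : a = b := by ext; omega
         rw [this])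
  have h1 : AlgebraicIndependent ℂ (mono ∘ f) := ind_mono.comp f hf
  let Z : (Fin n ⊕ Fin n) ⊕ Fin 2 → LL :=
    Sum.elim (Sum.elim σ.x σ.w) (fun j => mono (2 * n + j))
  have hZ : AlgebraicIndependent ℂ Z := by
    refine exchange h1 ?_
    set S := Set.range Z with hS
    have m0 : Alg ℂ S (mono (2 * n)) := by
      have : Z (Sum.inr 0) = mono (2 * n) := rfl
      rw [← this]; exact Alg.mem ⟨_, rfl⟩
    have m1 : Alg ℂ S (mono (2 * n + 1)) := by
      have : Z (Sum.inr 1) = mono (2 * n + 1) := rfl
      rw [← this]; exact Alg.mem ⟨_, rfl⟩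
    have mR : Alg ℂ S R := by
      rw [Alg_iff_mem_closure] at hR ⊢
      refine Matroid.closure_subset_closure_of_subset_closure ?_ hR
      rintro x (rfl | hx)
      · exact Alg_iff_mem_closure.mp m0
      · rw [Set.mem_singleton_iff] at hx; subst hx
        exact Alg_iff_mem_closure.mp m1
    have mK : ∀ z : ℂ, Alg ℂ S (K z) := fun z => Alg.const S z
    rintro ((i | i) | j)
    · show Alg ℂ S (mono i)
      have e : mono i = σ.x i - (K (c i) + R * (K Complex.I * (K (v i) * (mono (2 * n + 1))⁻¹ -
          K (u i) * mono (2 * n + 1)))) := by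
        show mono i = (K (c i) + R * (K Complex.I * (K (v i) * (mono (2 * n + 1))⁻¹ -
          K (u i) * mono (2 * n + 1))) + mono i) - _
        ring
      rw [e]
      have hx : Alg ℂ S (σ.x i) := by
        have : Z (Sum.inl (Sum.inl i)) = σ.x i := rfl
        rw [← this]; exact Alg.mem ⟨_, rfl⟩
      exact hx.sub ((mK _).add (mR.mul ((mK _).mul (((mK _).mul m1.inv).sub ((mK _).mul m1)))))
    · show Alg ℂ S (mono (n + i))
      have e : mono (n + i) = σ.w i - (K (v i) * (mono (2 * n + 1))⁻¹ +
          K (u i) * mono (2 * n + 1)) := by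
        show mono (n + i) = (K (v i) * (mono (2 * n + 1))⁻¹ + K (u i) * mono (2 * n + 1) +
          mono (n + i)) - _
        ring
      rw [e]
      have hx : Alg ℂ S (σ.w i) := by
        have : Z (Sum.inl (Sum.inr i)) = σ.w i := rfl
        rw [← this]; exact Alg.mem ⟨_, rfl⟩
      exact hx.sub (((mK _).mul m1.inv).add ((mK _).mul m1))
    · exact Alg.mem ⟨Sum.inr j, rfl⟩
  have h2 : AlgebraicIndependent ℂ (Sum.elim σ.x σ.w) := hZ.comp Sum.inl Sum.inl_injective
  exact h2.restrictScalars (algebraMap ℝ ℂ).injective

end Inv38
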