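import Pool.Agent.Lib_helper86.Inv.Chain
import Pool.Agent.Lib_helper86.Inv.InitInd

/-!
The square roots of a reduced chain of reflections in spheres are independent.
-/

set_option autoImplicit false

namespace Inv38

open IntermediateField Matrix

/-- a general isotropic direction for the centres of a chain -/
structure Iso {n : ℕ} {F : Type*} (D : Ch n F) (b : ℕ) (v u : Fin n → ℂ) : Prop where
  vv : ∑ i, v i * v i = 0
  uu : ∑ i, u i * u i = 0
  vu : ∑ i, v i * u i = 1 / 2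
  gen : ∀ i < b, ∀ j < b, (D.l i).c ≠ (D.l j).c →
    ∑ k, (((D.l i).c k - (D.l j).c k : ℝ) : ℂ) * v k ≠ 0

namespace Ch

variable {n : ℕ} {F : Type*} [Field F] [Algebra ℝ F] {D : Ch n F}

/-- after the levels `a, ..., j - 1` (the last centre is `c`), seen from a line tangent to the
sphere of level `a` -/
def Good (D : Ch n F) (v : Fin n → ℂ) (a j : ℕ) (c : Fin n → ℝ) (σ : St n LL) (κ μ P : LL) : Prop :=
  PostB v σ c κ μ P ∨
    (PreS v (D.l a).r σ c κ μ P ∧ c = (D.l a).c ∧ ∀ i, a ≤ i → i < j → (D.l i).c = (D.l a).c)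

/-- the next level -/
lemma next_level {v u : Fin n → ℂ} {a j : ℕ} (haj : a < j) (hiso : Iso D (j + 1) v u)
    (hra : 0 < (D.l a).r) (hred : D.Red a (j + 1)) (hrj : 0 < (D.l j).r) {σ : St n LL}
    {κ μ P : LL} {i₀ : ℕ} (hi₀ : i₀ < j) (hg : Good D v a j (D.l i₀).c σ κ μ P) :
    ∃ S : LL, S ≠ 0 ∧ S ^ 2 = (algebraMap ℝ LL (D.l j).r) ^ 2 * nn σ - gg (D.l j).c σ ∧
      ∀ e : ℕ, 1 ≤ e → ∃ κ' μ' P' : LL, Good D v a (j + 1) (D.l j).c
        ((step ⟨(D.l j).c, (D.l j).r, S⟩)^[e] σ) κ' μ' P' := by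
  by_cases hc : (D.l j).c = (D.l i₀).c
  · rw [hc]
    rcases hg with h | ⟨h1, h2, h3⟩
    · obtain ⟨S, hS0, hS, hS2⟩ := h.pre.level hrj
      refine ⟨S, hS0, hS, fun e he => ?_⟩
      obtain ⟨κ', μ', h4, -⟩ := hS2 e he
      exact ⟨κ', μ', P, Or.inl h4⟩
    · have hne : (D.l j).r ≠ (D.l a).r := by
        refine hred a j le_rfl haj (Nat.lt_succ_self j) ?_
        intro l hl hl'
        rcases Nat.lt_or_ge l j with h | h
        · exact h3 l hl.le h
        · have : l = j := le_antisymm hl' h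
          subst this; rw [hc, h2]
      obtain ⟨S, hS0, hS, hS2⟩ := h1.level hra hrj hne
      refine ⟨S, hS0, hS, fun e _ => ?_⟩
      obtain ⟨κ', μ', h4⟩ := hS2 e
      refine ⟨κ', μ', P, Or.inr ⟨h4, h2, ?_⟩⟩
      intro l hl hl'
      rcases Nat.lt_or_ge l j with h | h
      · exact h3 l hl h
      · have : l = j := by omega
        subst this; rw [hc, h2]
  · have hb : ∑ k, (((D.l i₀).c k - (D.l j).c k : ℝ) : ℂ) * v k ≠ 0 :=
      hiso.gen i₀ (by omega) j (by omega) (fun h => hc h.symm)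
    obtain ⟨μ', P', hpre⟩ : ∃ μ' P', PreB v σ (D.l j).c κ μ' P' := by
      rcases hg with h | ⟨h1, -, -⟩
      · exact h.shift _ hb
      · exact h1.shift _ hb
    obtain ⟨S, hS0, hS, hS2⟩ := hpre.level hrj
    refine ⟨S, hS0, hS, fun e he => ?_⟩
    obtain ⟨κ', μ'', h4, -⟩ := hS2 e he
    exact ⟨κ', μ'', P', Or.inl h4⟩

lemma Iso_mono {v u : Fin n → ℂ} {b b' : ℕ} (h : Iso D b v u) (hb : b' ≤ b) : Iso D b' v u :=
  ⟨h.vv, h.uu, h.vu, fun i hi j hj => h.gen i (by omega) j (by omega)⟩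

/-- the discriminant of the sphere `a` at the special state is not a square -/
lemma spec_not_square {v u : Fin n → ℂ} {c : Fin n → ℝ} {ra : ℝ} (hra : 0 < ra) {σ : St n LL}
    {κ μ P : LL} (h : Com v σ c κ μ P)
    (hP : DS (2 * n) (P - (K (ra : ℂ) + mono (2 * n)) ^ 2)) (x : LL) :
    x ^ 2 ≠ (algebraMap ℝ LL ra) ^ 2 * nn σ - gg c σ := by
  have hN0 := h.N0
  have hε0 := mono_ne (2 * n)
  have hε : MM (mono (2 * n)) := MM_mono _
  set E := P - (K (ra : ℂ) + mono (2 * n)) ^ 2 with hE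
  have e1 : (algebraMap ℝ LL ra) ^ 2 * nn σ - gg c σ =
      mono (2 * n) * (nn σ * -(K (2 * ra) + mono (2 * n) + E * (mono (2 * n))⁻¹)) := by
    rw [Ft.gg_eq _ hN0, h.hP, algebraMap_real, K_mul, K_two]
    have : P = (K (ra : ℂ) + mono (2 * n)) ^ 2 + E := by rw [hE]; ring
    rw [this]
    field_simp
    ring
  rw [e1]
  have hra' : (ra : ℂ) ≠ 0 := by exact_mod_cast hra.ne'
  have hcl : Cl (nn σ * -(K (2 * ra) + mono (2 * n) + E * (mono (2 * n))⁻¹)) (-(2 * ra)) := by
    refine (h.hN.mul (((Cl_const (2 * ra)).add hε.cl).add (hP.mulInv').M.cl).neg).congr ?_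
    ring
  exact not_square (neg_ne_zero.mpr (mul_ne_zero two_ne_zero hra')) hcl x

/-- the special state for a line tangent to a sphere -/
lemma spec_start {v u : Fin n → ℂ} (hvv : ∑ i, v i * v i = 0) (huu : ∑ i, u i * u i = 0)
    (hvu : ∑ i, v i * u i = 1 / 2) (c : Fin n → ℝ) {ra : ℝ} (hra : 0 < ra) :
    ∃ σ : St n LL, AlgebraicIndependent ℝ (Sum.elim σ.x σ.w) ∧ ∃ κ μ P : LL,
      PreS v ra σ c κ μ P ∧ DS (2 * n) (P - (K (ra : ℂ) + mono (2 * n)) ^ 2) := by
  have hra' : (ra : ℂ) ≠ 0 := by exact_mod_cast hra.ne'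
  have hRcl : Cl (K (ra : ℂ) + mono (2 * n)) ra :=
    ((Cl_const _).add (MM_mono _).cl).congr (add_zero _)
  have hR0 : K (ra : ℂ) + mono (2 * n) ≠ 0 := hRcl.ne hra'
  obtain ⟨P, hP1, hP2⟩ := spec_com (2 * n) hvv huu hvu c (R := K (ra : ℂ) + mono (2 * n)) hR0
    (hRcl.inv hra').O (TT_of_OO hRcl.O) (dx := fun i => mono i) (dw := fun i => mono (n + i))
    (fun i => DS_mono (by have := i.isLt; omega)) (fun i => DS_mono (by have := i.isLt; omega))
  refine ⟨_, spec_ind v u c (K (ra : ℂ) + mono (2 * n))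
    ((Alg.const _ _).add (Alg.mem (by simp))), _, _, P, ⟨hP1, ?_, ?_⟩, hP2⟩
  · have : P = (K (ra : ℂ) + mono (2 * n)) ^ 2 + (P - (K (ra : ℂ) + mono (2 * n)) ^ 2) := by ring
    rw [this]
    exact ((hRcl.pow 2).add hP2.M.cl).congr (add_zero _)
  · have hT0 := mono_ne (2 * n + 1)
    have e : K Complex.I * (K (ra : ℂ) + mono (2 * n)) * (mono (2 * n + 1))⁻¹ /
        (mono (2 * n + 1))⁻¹ = K Complex.I * (K (ra : ℂ) + mono (2 * n)) := by
      field_simp
    rw [e]
    exact (Cl_const _).mul hRcl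

/-- the embedding with growth -/
lemma embed {v u : Fin n → ℂ} (a k : ℕ) (hiso : Iso D (a + 1 + k) v u) (hra : 0 < (D.l a).r)
    (hch : D.IsCh (a + 1) (a + 1 + k)) (hred : D.Red a (a + 1 + k))
    (hind : AlgebraicIndependent ℝ (Sum.elim (D.st (a + 1)).x (D.st (a + 1)).w))
    (hi : ∀ j < k, (D.l (a + 1 + j)).s ∉ D.FF (a + 1) j) :
    ∃ ψ : F → LL, HomOn (D.FF (a + 1) k) ψ ∧
      (∀ x : LL, x ^ 2 ≠ (algebraMap ℝ LL (D.l a).r) ^ 2 * nn (mapSt ψ (D.st (a + 1))) -
        gg (D.l a).c (mapSt ψ (D.st (a + 1)))) ∧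
      ∃ κ μ P : LL, Good D v a (a + 1 + k) (D.l (a + k)).c (mapSt ψ (D.st (a + 1 + k))) κ μ P := by
  induction k with
  | zero =>
    obtain ⟨σ, h1, κ, μ, P, h2, h3⟩ := spec_start hiso.vv hiso.uu hiso.vu (D.l a).c hra
    obtain ⟨ψ, g1, g2⟩ := base_hom hind h1
    have hσ : mapSt ψ (D.st (a + 1)) = σ := by
      apply St.ext
      · funext i; exact g2 (Sum.inl i)
      · funext i; exact g2 (Sum.inr i)
    refine ⟨ψ, g1, ?_, κ, μ, P, Or.inr ⟨?_, rfl, ?_⟩⟩
    · rw [hσ]; exact spec_not_square (v := v) (u := u) hra h2.1 h3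
    · show PreS v (D.l a).r (mapSt ψ (D.st (a + 1))) (D.l a).c κ μ P
      rw [hσ]; exact h2
    · intro l hl hl'
      have : l = a := by omega
      rw [this]
  | succ k ih =>
    obtain ⟨ψ, h1, h2, κ, μ, P, h3⟩ := ih (Iso_mono hiso (by omega))
      (fun i hi hi' => hch i hi (by omega))
      (fun i j hi hij hj => hred i j hi hij (by omega)) (fun j hj => hi j (by omega))
    set j := a + 1 + k with hj
    have hlev : D.Lev j := hch j (by omega) (by omega)
    have hK : InK (D.FF (a + 1) k) (D.st j) :=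
      st_mem (D := D) (a + 1) k (fun i hi hi' => hch i hi (by omega))
    obtain ⟨S, hS0, hS, hS2⟩ := next_level (i₀ := a + k) (by omega) (Iso_mono hiso (by omega)) hra
      (fun i k' hi hij hj => hred i k' hi hij (by omega)) hlev.ok.1 (by omega) h3
    have hS' : S ^ 2 = ψ ((D.l j).s ^ 2) := by rw [hS, hlev.ψsq hK h1]
    obtain ⟨ψ', g1, g2, g3⟩ := ext_hom h1 (hlev.sq hK) (hi k (by omega)) hS'
    have g1' : HomOn (D.FF (a + 1) (k + 1)) ψ' := g1
    have hmap : ∀ i, InK (D.FF (a + 1) k) (D.st i) → mapSt ψ' (D.st i) = mapSt ψ (D.st i) := by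
      intro i hi
      apply St.ext
      · funext m; exact g2 _ (hi.1 m)
      · funext m; exact g2 _ (hi.2 m)
    refine ⟨ψ', g1', ?_, ?_⟩
    · rw [hmap _ ((F0_in (a + 1)).mono (F0_le_FF _ _))]; exact h2
    · obtain ⟨κ', μ', P', h4⟩ := hS2 (D.e j) hlev.epos
      have e3 : a + (k + 1) = j := by omega
      have e4 : a + 1 + (k + 1) = j + 1 := by omega
      rw [e3, e4]
      refine ⟨κ', μ', P', ?_⟩
      rw [hlev.next, g1'.iter (hK.mono (FF_le_succ _ _)) (s_mem (a + 1) k), hmap _ hK]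
      have : ψ' (D.l j).s = S := g3
      rw [← hj, this]
      exact h4

/-- the square roots of a reduced chain are independent -/
theorem indep {v u : Fin n → ℂ} : ∀ k a : ℕ, Iso D (a + k + 1) v u → D.IsCh a (a + k + 1) →
    D.Red a (a + k + 1) → AlgebraicIndependent ℝ (Sum.elim (D.st a).x (D.st a).w) →
    (D.l (a + k)).s ∉ D.FF a k := by
  intro k
  induction k using Nat.strong_induction_on with
  | _ k ih =>
    intro a hiso hch hred hind hmem
    have hlev : D.Lev a := hch a le_rfl (by omega)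
    rcases Nat.eq_zero_or_pos k with h0 | hpos
    · subst h0
      rw [add_zero] at hmem
      obtain ⟨σ, h1, κ, μ, P, h2, h3⟩ :=
        spec_start hiso.vv hiso.uu hiso.vu (D.l a).c hlev.ok.1
      obtain ⟨ψ, g1, g2⟩ := base_hom hind h1
      have hσ : mapSt ψ (D.st a) = σ := by
        apply St.ext
        · funext i; exact g2 (Sum.inl i)
        · funext i; exact g2 (Sum.inr i)
      have g1' : HomOn (D.FF a 0) ψ := g1
      refine spec_not_square (v := v) (u := u) hlev.ok.1 h2.1 h3 (ψ (D.l a).s) ?_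
      rw [← g1'.pow hmem, hlev.ψsq (F0_in a) g1', hσ]
    · obtain ⟨k, rfl⟩ : ∃ k', k = k' + 1 := ⟨k - 1, by omega⟩
      have hb : a + (k + 1) = a + 1 + k := by omega
      rw [hb, FF_shift a k hlev] at hmem
      have hchN : D.IsCh (a + 1) (a + 1 + k + 1) := fun i hi hi' => hch i (by omega) (by omega)
      have hredN : D.Red (a + 1) (a + 1 + k + 1) :=
        fun i j hi hij hj => hred i j (by omega) hij (by omega)
      have hind1 := hlev.ind hind
      have hN1 : (D.l (a + 1 + k)).s ∉ D.FF (a + 1) k :=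
        ih k (by omega) (a + 1) (Iso_mono hiso (by omega)) hchN hredN hind1
      obtain ⟨ψ, h1, h2, κ, μ, P, h3⟩ := embed a k (Iso_mono hiso (by omega)) hlev.ok.1
        (fun i hi hi' => hchN i hi (by omega))
        (fun i j hi hij hj => hred i j hi hij (by omega)) hind1
        (fun k' hk' => ih k' (by omega) (a + 1) (Iso_mono hiso (by omega))
          (fun i hi hi' => hchN i hi (by omega))
          (fun i j hi hij hj => hredN i j hi hij (by omega)) hind1)
      have hK1 : InK (D.FF (a + 1) k) (D.st (a + 1)) := (F0_in (a + 1)).mono (F0_le_FF _ _)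
      -- the square of the first root, seen from the state a + 1
      have hsa2 : (D.l a).s ^ 2 = (algebraMap ℝ F (D.l a).r) ^ 2 * nn (D.st (a + 1)) -
          gg (D.l a).c (D.st (a + 1)) := hlev.ok_next.2
      have hsa2N : (D.l a).s ^ 2 ∈ D.FF (a + 1) k := by
        rw [hsa2]
        exact sub_mem (mul_mem (pow_mem (IntermediateField.algebraMap_mem _ _) 2) hK1.nn)
          (hK1.gg _)
      have hψa : ψ ((D.l a).s ^ 2) =
          (algebraMap ℝ LL (D.l a).r) ^ 2 * nn (mapSt ψ (D.st (a + 1))) -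
            gg (D.l a).c (mapSt ψ (D.st (a + 1))) := by
        rw [hsa2, h1.sub (mul_mem (pow_mem (IntermediateField.algebraMap_mem _ _) 2) hK1.nn)
          (hK1.gg _), h1.2.1 _ (pow_mem (IntermediateField.algebraMap_mem _ _) 2) _ hK1.nn,
          h1.pow (IntermediateField.algebraMap_mem _ _), h1.2.2, h1.nn hK1, h1.gg hK1]
      have hsa : (D.l a).s ∉ D.FF (a + 1) k := by
        intro hsa
        exact h2 (ψ (D.l a).s) (by rw [← h1.pow hsa, hψa])
      obtain ⟨α, hα, β, hβ, hαβ⟩ := quad_repr (D.l a).s hsa2N _ hmem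
      set j := a + 1 + k with hj
      have hlevj : D.Lev j := hchN j (by omega) (by omega)
      have hKj : InK (D.FF (a + 1) k) (D.st j) :=
        st_mem (D := D) (a + 1) k (fun i hi hi' => hchN i hi (by omega))
      have hsj2N : (D.l j).s ^ 2 ∈ D.FF (a + 1) k := hlevj.sq hKj
      have hβ0 : β ≠ 0 := by
        rintro rfl
        apply hN1
        rw [hαβ, zero_mul, add_zero]; exact hα
      have h22 : (2 : F) ∈ D.FF (a + 1) k := by
        have := (D.FF (a + 1) k).algebraMap_mem 2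
        rwa [map_ofNat] at this
      have h2' : (2 : F) ≠ 0 := by
        have : (2 : F) = algebraMap ℝ F 2 := by rw [map_ofNat]
        rw [this, Ne, FaithfulSMul.algebraMap_eq_zero_iff]; norm_num
      have hα0 : α = 0 := by
        by_contra hα0
        apply hsa
        have e : (D.l a).s = ((D.l j).s ^ 2 - α ^ 2 - β ^ 2 * (D.l a).s ^ 2) / (2 * α * β) := by
          have : (D.l j).s ^ 2 = (α + β * (D.l a).s) ^ 2 := by rw [hαβ]
          rw [this]; field_simp; ring
        rw [e]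
        exact div_mem (sub_mem (sub_mem hsj2N (pow_mem hα 2)) (mul_mem (pow_mem hβ 2) hsa2N))
          (mul_mem (mul_mem h22 hα) hβ)
      obtain ⟨S, hS0, hS, -⟩ := next_level (D := D) (a := a) (j := j) (i₀ := a + k) (by omega)
        (Iso_mono hiso (by omega)) hlev.ok.1
        (fun i k' hi hij hj => hred i k' hi hij (by omega)) hlevj.ok.1 (by omega) h3
      have hS' : S ^ 2 = ψ ((D.l j).s ^ 2) := by rw [hS, hlevj.ψsq hKj h1]
      have hfin : S ^ 2 = ψ β ^ 2 * ψ ((D.l a).s ^ 2) := by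
        rw [hS', hαβ, hα0, zero_add, mul_pow, h1.2.1 _ (pow_mem hβ 2) _ hsa2N, h1.pow hβ]
      have hψβ : ψ β ≠ 0 := h1.ne_zero hβ hβ0
      refine h2 (S / ψ β) ?_
      rw [← hψa, div_pow, hfin]
      field_simp

end Ch

end Inv38
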