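import Pool.Agent.Lib_helper86.Inv.Growth

/-!
The special states in the Hahn field: a line which is (almost) isotropic, perturbed by independent
infinitesimals.
-/

set_option autoImplicit false

namespace Inv38

open Matrix
open Inv38.Ft (foot)

/-- bounded by a power of the reciprocal of the (k+1)-st monomial -/
def TT (k : ℕ) (x : LL) : Prop := ∃ j : ℕ, OO (x * (mono (k + 1)) ^ j)

lemma TT_of_OO {k : ℕ} {x : LL} (h : OO x) : TT k x := ⟨0, by simpa using h⟩

lemma TT_inv (k : ℕ) : TT k (mono (k + 1))⁻¹ :=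
  ⟨1, by rw [pow_one, inv_mul_cancel₀ (mono_ne _)]; exact OO_one⟩

lemma TT.mul {k : ℕ} {x y : LL} (hx : TT k x) (hy : TT k y) : TT k (x * y) := by
  obtain ⟨i, hi⟩ := hx
  obtain ⟨j, hj⟩ := hy
  refine ⟨i + j, ?_⟩
  have e : x * y * mono (k + 1) ^ (i + j) = (x * mono (k + 1) ^ i) * (y * mono (k + 1) ^ j) := by
    ring
  rw [e]; exact OO_mul hi hj

lemma TT.add {k : ℕ} {x y : LL} (hx : TT k x) (hy : TT k y) : TT k (x + y) := by
  obtain ⟨i, hi⟩ := hx
  obtain ⟨j, hj⟩ := hy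
  refine ⟨i + j, ?_⟩
  have e : (x + y) * mono (k + 1) ^ (i + j) = (x * mono (k + 1) ^ i) * mono (k + 1) ^ j +
    (y * mono (k + 1) ^ j) * mono (k + 1) ^ i := by ring
  rw [e]
  exact OO_add (OO_mul hi (OO_pow (MM_mono _).O _)) (OO_mul hj (OO_pow (MM_mono _).O _))

lemma TT.neg {k : ℕ} {x : LL} (hx : TT k x) : TT k (-x) := by
  obtain ⟨i, hi⟩ := hx
  exact ⟨i, by rw [neg_mul]; exact OO_neg hi⟩

lemma TT.sub {k : ℕ} {x y : LL} (hx : TT k x) (hy : TT k y) : TT k (x - y) := by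
  rw [sub_eq_add_neg]; exact hx.add hy.neg

lemma DS.mulT {k : ℕ} {x y : LL} (hx : DS k x) (hy : TT k y) : DS k (x * y) := by
  obtain ⟨j, hj⟩ := hy
  have h1 : ∀ i : ℕ, DS k (x * ((mono (k + 1))⁻¹) ^ i) := by
    intro i
    induction i with
    | zero => simpa using hx
    | succ i ih =>
      have := ih.mulInv
      rwa [mul_assoc, ← pow_succ] at this
  have e : x * y = (x * ((mono (k + 1))⁻¹) ^ j) * (y * (mono (k + 1)) ^ j) := by
    rw [inv_pow]
    have := pow_ne_zero j (mono_ne (k + 1))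
    field_simp
  rw [e]
  exact (h1 j).mulO hj

lemma DS.mulT' {k : ℕ} {x y : LL} (hx : TT k x) (hy : DS k y) : DS k (x * y) := by
  rw [mul_comm]; exact hy.mulT hx

variable {n : ℕ}

/-- the special state -/
noncomputable def spec (k : ℕ) (v u : Fin n → ℂ) (c : Fin n → ℝ) (R : LL) (dx dw : Fin n → LL) :
    St n LL :=
  ⟨fun i => K (c i) + R * (K Complex.I * (K (v i) * (mono (k + 1))⁻¹ - K (u i) * mono (k + 1))) +
      dx i,
   fun i => K (v i) * (mono (k + 1))⁻¹ + K (u i) * mono (k + 1) + dw i⟩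

/-- the special state is as required -/
theorem spec_com (k : ℕ) {v u : Fin n → ℂ} (hvv : ∑ i, v i * v i = 0) (huu : ∑ i, u i * u i = 0)
    (hvu : ∑ i, v i * u i = 1 / 2) (c : Fin n → ℝ) {R : LL} (hR0 : R ≠ 0) (hR : OO R⁻¹)
    (hRT : TT k R) {dx dw : Fin n → LL} (hdx : ∀ i, DS k (dx i)) (hdw : ∀ i, DS k (dw i)) :
    ∃ P, Com v (spec k v u c R dx dw) c (mono (k + 1))⁻¹ (K Complex.I * R * (mono (k + 1))⁻¹) P ∧
      DS k (P - R ^ 2) := by
  set T := mono (k + 1) with hT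
  have hT0 : T ≠ 0 := mono_ne _
  have hTM : MM T := MM_mono _
  have hTT : TT k T := TT_of_OO hTM.O
  have hTI : TT k T⁻¹ := TT_inv k
  have hK : ∀ z, TT k (K z) := fun z => TT_of_OO (OO_const z)
  set σ := spec k v u c R dx dw with hσ
  set e : Fin n → LL := fun i => K Complex.I * (K (v i) * T⁻¹ - K (u i) * T) with he
  set w0 : Fin n → LL := fun i => K (v i) * T⁻¹ + K (u i) * T with hw0
  have heT : ∀ i, TT k (e i) := fun i =>
    (hK _).mul (((hK _).mul hTI).sub ((hK _).mul hTT))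
  have hw0T : ∀ i, TT k (w0 i) := fun i => ((hK _).mul hTI).add ((hK _).mul hTT)
  have hII : K Complex.I * K Complex.I = -1 := by
    rw [← K_mul, Complex.I_mul_I, K_neg, K_one]
  have sK : ∀ f g : Fin n → ℂ, ∑ i, K (f i) * K (g i) = K (∑ i, f i * g i) := by
    intro f g
    unfold K
    rw [map_sum]
    exact Finset.sum_congr rfl fun i _ => (map_mul _ _ _).symm
  have hKvv : ∑ i, K (v i) * K (v i) = 0 := by rw [sK, hvv, K_zero]
  have hKuu : ∑ i, K (u i) * K (u i) = 0 := by rw [sK, huu, K_zero]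
  have hKvu : ∑ i, K (v i) * K (u i) = K (1 / 2) := by rw [sK, hvu]
  have h22 : (2 : LL) * K (1 / 2) = 1 := by
    rw [← K_two, ← K_mul]; norm_num
  -- products of the exact vectors
  have hww0 : w0 ⬝ᵥ w0 = 1 := by
    have : w0 ⬝ᵥ w0 = T⁻¹ ^ 2 * ∑ i, K (v i) * K (v i) + 2 * (T⁻¹ * T) * ∑ i, K (v i) * K (u i) +
        T ^ 2 * ∑ i, K (u i) * K (u i) := by
      unfold dotProduct
      rw [Finset.mul_sum, Finset.mul_sum, Finset.mul_sum, ← Finset.sum_add_distrib,
        ← Finset.sum_add_distrib]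
      refine Finset.sum_congr rfl fun i _ => ?_
      simp only [hw0]; ring
    rw [this, hKvv, hKuu, hKvu, inv_mul_cancel₀ hT0, mul_one, h22]; ring
  have hee : e ⬝ᵥ e = 1 := by
    have : e ⬝ᵥ e = (K Complex.I * K Complex.I) * (T⁻¹ ^ 2 * ∑ i, K (v i) * K (v i) -
        2 * (T⁻¹ * T) * ∑ i, K (v i) * K (u i) + T ^ 2 * ∑ i, K (u i) * K (u i)) := by
      unfold dotProduct
      rw [Finset.mul_sum, Finset.mul_sum, Finset.mul_sum, ← Finset.sum_sub_distrib,
        ← Finset.sum_add_distrib, Finset.mul_sum]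
      refine Finset.sum_congr rfl fun i _ => ?_
      simp only [he]; ring
    rw [this, hKvv, hKuu, hKvu, inv_mul_cancel₀ hT0, mul_one, h22, hII]; ring
  have hew : e ⬝ᵥ w0 = 0 := by
    have : e ⬝ᵥ w0 = K Complex.I * (T⁻¹ ^ 2 * ∑ i, K (v i) * K (v i) -
        T ^ 2 * ∑ i, K (u i) * K (u i)) := by
      unfold dotProduct
      rw [Finset.mul_sum, Finset.mul_sum, ← Finset.sum_sub_distrib, Finset.mul_sum]
      refine Finset.sum_congr rfl fun i _ => ?_
      simp only [he, hw0]; ring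
    rw [this, hKvv, hKuu]; ring
  have hσw : σ.w = w0 + dw := rfl
  have hσx : σ.x - cc c = R • e + dx := by
    funext i
    show K (c i) + R * (K Complex.I * (K (v i) * T⁻¹ - K (u i) * T)) + dx i -
      algebraMap ℝ LL (c i) = R * e i + dx i
    rw [algebraMap_real]; simp only [he]; ring
  have dsdot : ∀ f g : Fin n → LL, (∀ i, TT k (f i)) → (∀ i, DS k (g i)) → DS k (f ⬝ᵥ g) := by
    intro f g hf hg
    unfold dotProduct
    exact DS_sum _ _ fun i _ => DS.mulT' (hf i) (hg i)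
  have tds : ∀ x : LL, DS k x → TT k x := fun x hx => TT_of_OO hx.M.O
  -- length
  have hN : DS k (nn σ - 1) := by
    have : nn σ - 1 = 2 * (w0 ⬝ᵥ dw) + dw ⬝ᵥ dw := by
      unfold nn
      rw [hσw, add_dotProduct, dotProduct_add, dotProduct_add, hww0, dotProduct_comm dw w0]
      ring
    rw [this]
    exact (DS.mulT' (by rw [← K_two]; exact hK 2) (dsdot _ _ hw0T hdw)).add
      (dsdot _ _ (fun i => tds _ (hdw i)) hdw)
  have hNcl : Cl (nn σ) 1 := by
    unfold Cl; rw [K_one]; exact hN.M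
  have hN0 : nn σ ≠ 0 := hNcl.ne one_ne_zero
  have hNinv : OO (nn σ)⁻¹ := (hNcl.inv one_ne_zero).O
  -- scalar product of position and direction
  set q := (σ.x - cc c) ⬝ᵥ σ.w with hq
  have hqDS : DS k q := by
    have : q = R * (e ⬝ᵥ dw) + w0 ⬝ᵥ dx + dx ⬝ᵥ dw := by
      rw [hq, hσx, hσw, add_dotProduct, dotProduct_add, dotProduct_add, smul_dotProduct,
        smul_dotProduct, hew, dotProduct_comm dx w0]
      simp only [smul_eq_mul]
      ring
    rw [this]
    exact ((DS.mulT' hRT (dsdot _ _ heT hdw)).add (dsdot _ _ hw0T hdx)).add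
      (dsdot _ _ (fun i => tds _ (hdx i)) hdw)
  have hwT : ∀ i, TT k (σ.w i) := by
    intro i
    rw [hσw]
    exact (hw0T i).add (tds _ (hdw i))
  set D : Fin n → LL := fun i => dx i - (q / nn σ) * σ.w i with hD
  have hDDS : ∀ i, DS k (D i) := by
    intro i
    refine (hdx i).sub (DS.mulT ?_ (hwT i))
    rw [div_eq_mul_inv]
    exact hqDS.mulO hNinv
  have hfoot : foot c σ = R • e + D := by
    unfold foot
    rw [← hq, hσx]
    funext i
    simp only [Pi.add_apply, Pi.sub_apply, Pi.smul_apply, smul_eq_mul, hD]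
    ring
  set P := foot c σ ⬝ᵥ foot c σ with hP
  have hPDS : DS k (P - R ^ 2) := by
    have : P - R ^ 2 = 2 * R * (e ⬝ᵥ D) + D ⬝ᵥ D := by
      rw [hP, hfoot, add_dotProduct, dotProduct_add, dotProduct_add, smul_dotProduct,
        smul_dotProduct, dotProduct_smul, dotProduct_smul, hee, dotProduct_comm D e]
      simp only [smul_eq_mul]
      ring
    rw [this]
    exact (DS.mulT' ((by rw [← K_two]; exact hK 2 : TT k (2 : LL)).mul hRT)
      (dsdot _ _ heT hDDS)).add (dsdot _ _ (fun i => tds _ (hDDS i)) hDDS)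
  have hPR : Cl (P / R ^ 2) 1 := by
    unfold Cl
    have : P / R ^ 2 - K 1 = (P - R ^ 2) * (R⁻¹) ^ 2 := by
      rw [K_one]; field_simp
    rw [this]
    exact MM_mul hPDS.M (OO_pow hR 2)
  have hP0 : P ≠ 0 := by
    have := hPR.ne one_ne_zero
    intro h0; rw [h0, zero_div] at this; exact this rfl
  have hI0 : K Complex.I ≠ 0 := K_ne Complex.I_ne_zero
  have hT2 : MM (T ^ 2) := MM_pow hTM (by norm_num)
  refine ⟨P, ⟨hNcl, inv_ne_zero hT0, by rw [inv_inv]; exact hTM,
    mul_ne_zero (mul_ne_zero hI0 hR0) (inv_ne_zero hT0), ?_, ?_, rfl, hP0, ?_⟩, hPDS⟩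
  · intro i
    have e1 : σ.w i / T⁻¹ = K (v i) + K (u i) * T ^ 2 + dw i * T := by
      rw [hσw]
      simp only [Pi.add_apply, hw0]
      field_simp
    rw [e1]
    refine (((Cl_const (v i)).add (MM_mul' (OO_const _) hT2).cl).add
      (MM_mul (hdw i).M hTM.O).cl).congr ?_
    ring
  · intro i
    have e1 : foot c σ i / (K Complex.I * R * T⁻¹) =
        K (v i) - K (u i) * T ^ 2 + D i * T * R⁻¹ * (K Complex.I)⁻¹ := by
      rw [hfoot]
      simp only [Pi.add_apply, Pi.smul_apply, smul_eq_mul, he]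
      field_simp
    rw [e1]
    refine (((Cl_const (v i)).sub (MM_mul' (OO_const _) hT2).cl).add
      (MM_mul (MM_mul (MM_mul (hDDS i).M hTM.O) hR) ?_).cl).congr ?_
    · rw [← K_inv]; exact OO_const _
    · ring
  · have e1 : (K Complex.I * R * T⁻¹) ^ 2 / (P * (T⁻¹) ^ 2) = -(P / R ^ 2)⁻¹ := by
      have : (K Complex.I * R * T⁻¹) ^ 2 = (K Complex.I * K Complex.I) * R ^ 2 * (T⁻¹) ^ 2 := by
        ring
      rw [this, hII]
      field_simp
    rw [e1]
    exact (hPR.inv one_ne_zero).neg.congr (by norm_num)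

end Inv38
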