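import Pool.Agent.Lib_helper86.Inv.Final
import Pool.Agent.Lib_helper32.InvNormal
import Pool.Agent.Lib_helper32.InvMeasure

/-!
Lines which come back to themselves after reflections in a word of mirrors.
-/

set_option autoImplicit false

namespace Inv38

open scoped RealInnerProductSpace

/-- a line `x + ℝ v` which comes back to itself after `k` reflections in the mirrors
`μ 0, ..., μ (k - 1)`; `v` has any length, the time runs with `v` -/
def WordPath {n : ℕ} (k : ℕ) (μ : ℕ → Mir n) (x v : EuclideanSpace ℝ (Fin n)) : Prop :=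
  v ≠ 0 ∧ ∃ (a e m : ℕ → EuclideanSpace ℝ (Fin n)) (t : ℕ → ℝ) (τ τ' : ℝ),
    e 0 = v ∧ e k = v ∧
    (∀ i < k, a i ∈ (μ i).carrier ∧ (μ i).NormalAt (a i) (m i) ∧
      e (i + 1) = e i - (2 * ⟪e i, m i⟫) • m i) ∧
    a 0 = x + τ • v ∧ (∀ i, i + 1 < k → 0 < t i ∧ a (i + 1) = a i + t i • e (i + 1)) ∧
    a (k - 1) = x + τ' • v

end Inv38
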